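import Pool.Agent.Work.MP_768e99_pocket.Interface

set_option autoImplicit false

namespace Pool.Agent.Work.MP_768e99_pocket

open Pool.Agent.Work.MP_768e99_co

theorem C1 : B_C1 := by
  classical
  intro V _ G S k k0 d c hc hnb hk hS
  -- allowed colours
  let L : V → Finset (Fin k) := fun v =>
    Finset.univ.filter (fun a => ∀ w, w ∉ S → G.Adj v w → c w ≠ a)
  have hL : ∀ v ∈ S, k - k0 ≤ (L v).card := by
    intro v hv
    have h1 : (Finset.univ \ L v) ⊆ (nb G S).image c := by
      intro a ha
      simp only [L, Finset.mem_sdiff, Finset.mem_univ, true_and, Finset.mem_filter] at ha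
      push Not at ha
      obtain ⟨w, hw, hadj, hcw⟩ := ha
      exact Finset.mem_image.2 ⟨w, mem_nb.2 ⟨hw, v, hv, hadj⟩, hcw⟩
    have h2 := Finset.card_le_card h1
    have h3 := Finset.card_sdiff_add_card_eq_card (Finset.subset_univ (L v))
    have h4 : ((nb G S).image c).card ≤ k0 := Finset.card_image_le.trans hnb
    rw [Finset.card_univ, Fintype.card_fin] at h3
    omega
  -- admissible colourings
  let adm : (V → Fin k) → Prop := fun f => (∀ v, v ∉ S → f v = c v) ∧ ∀ v ∈ S, f v ∈ L v
  obtain ⟨f0, hf0⟩ : ∃ f, adm f := by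
    refine ⟨fun v => if h : v ∈ S then (Finset.card_pos.1 (lt_of_lt_of_le (by omega) (hL v h))).choose
      else c v, ?_, ?_⟩
    · intro v hv; simp [hv]
    · intro v hv
      simp only [hv, dif_pos]
      exact (Finset.card_pos.1 (lt_of_lt_of_le (by omega) (hL v hv))).choose_spec
  let F : (V → Fin k) → ℕ := fun g =>
    ∑ a ∈ S, ∑ b ∈ S, if G.Adj a b ∧ g a = g b then 1 else 0
  obtain ⟨g, hg, hmin⟩ := Finset.exists_min_image (Finset.univ.filter adm) F
    ⟨f0, by simp [hf0]⟩
  rw [Finset.mem_filter] at hg
  obtain ⟨-, hg1, hg2⟩ := hg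
  refine ⟨g, ?_⟩
  intro x
  by_cases hx : x ∈ S
  swap
  · -- outside
    refine (Set.ncard_le_ncard ?_ (Set.toFinite _)).trans (hc x hx)
    rintro w ⟨hadj, hcol⟩
    have hw : w ∉ S := by
      intro hw
      have := hg2 w hw
      simp only [L, Finset.mem_filter, Finset.mem_univ, true_and] at this
      have h1 := this x hx hadj.symm
      rw [hcol, hg1 x hx] at h1
      exact h1 rfl
    refine ⟨hw, hadj, ?_⟩
    rw [← hg1 x hx, ← hg1 w hw]; exact hcol
  -- inside
  have heq : {w | G.Adj x w ∧ g w = g x} = ((S.filter (fun y => G.Adj x y ∧ g y = g x) : Finset V) :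
      Set V) := by
    ext w
    simp only [Set.mem_ofPred_eq, Finset.coe_filter]
    constructor
    · rintro ⟨h1, h2⟩
      refine ⟨?_, h1, h2⟩
      by_contra hw
      have := hg2 x hx
      simp only [L, Finset.mem_filter, Finset.mem_univ, true_and] at this
      have h3 := this w hw h1
      rw [← hg1 w hw] at h3
      exact h3 h2
    · rintro ⟨_, h1, h2⟩; exact ⟨h1, h2⟩
  rw [heq, Set.ncard_coe_finset]
  by_contra hcon
  push Not at hcon
  obtain ⟨k', hk', hk⟩ : ∃ k' ∈ L x, (S.filter (fun y => G.Adj x y ∧ g y = k')).card ≤ d := by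
    by_contra hall
    push Not at hall
    have h1 : ∑ k' ∈ L x, (d + 1) ≤ ∑ k' ∈ L x, (S.filter (fun y => G.Adj x y ∧ g y = k')).card :=
      Finset.sum_le_sum fun k' hk' => hall k' hk'
    have h2 : ∑ k' ∈ L x, (S.filter (fun y => G.Adj x y ∧ g y = k')).card ≤
        (S.filter (fun y => G.Adj x y)).card := by
      rw [← Finset.card_biUnion]
      · refine Finset.card_le_card ?_
        intro y hy
        simp only [Finset.mem_biUnion, Finset.mem_filter] at hy ⊢
        obtain ⟨_, _, h, h', _⟩ := hy
        exact ⟨h, h'⟩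
      · intro a _ b _ hab
        refine Finset.disjoint_left.2 ?_
        intro y hy hy'
        rw [Finset.mem_filter] at hy hy'
        exact hab (hy.2.2.symm.trans hy'.2.2)
    have h3 : (S.filter (fun y => G.Adj x y)).card < S.card := by
      refine Finset.card_lt_card ⟨Finset.filter_subset _ _, fun h => ?_⟩
      have := h hx
      rw [Finset.mem_filter] at this
      exact G.irrefl this.2
    rw [Finset.sum_const, smul_eq_mul] at h1
    have h4 := Nat.mul_le_mul_right (d + 1) (hL x hx)
    rw [mul_comm] at hS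
    omega
  -- compare potentials
  have key : ∀ e : V → Fin k, F e =
      (∑ a ∈ S.erase x, ∑ b ∈ S.erase x, if G.Adj a b ∧ e a = e b then 1 else 0) +
        2 * ((S.erase x).filter (fun y => G.Adj x y ∧ e y = e x)).card := by
    intro e
    have h1 : ∀ g : V → ℕ, ∑ a ∈ S, g a = g x + ∑ a ∈ S.erase x, g a := fun g =>
      (Finset.add_sum_erase S g hx).symm
    simp only [F]
    rw [h1]
    have h2 : ∀ a, ∑ b ∈ S, (if G.Adj a b ∧ e a = e b then 1 else 0) =
        (if G.Adj a x ∧ e a = e x then 1 else 0) +
        ∑ b ∈ S.erase x, (if G.Adj a b ∧ e a = e b then 1 else 0) := fun a => h1 _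
    rw [Finset.sum_congr rfl fun a _ => h2 a, h2 x, Finset.sum_add_distrib]
    have h3 : (if G.Adj x x ∧ e x = e x then 1 else 0 : ℕ) = 0 := by
      rw [if_neg]; rintro ⟨h, _⟩; exact G.irrefl h
    have h4 : ∑ b ∈ S.erase x, (if G.Adj x b ∧ e x = e b then 1 else 0 : ℕ) =
        ((S.erase x).filter (fun y => G.Adj x y ∧ e y = e x)).card := by
      rw [Finset.card_filter]
      refine Finset.sum_congr rfl fun b _ => ?_
      simp only [eq_comm]
    have h5 : ∑ b ∈ S.erase x, (if G.Adj b x ∧ e b = e x then 1 else 0 : ℕ) =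
        ((S.erase x).filter (fun y => G.Adj x y ∧ e y = e x)).card := by
      rw [Finset.card_filter]
      refine Finset.sum_congr rfl fun b _ => ?_
      simp only [G.adj_comm b x]
    rw [h3, h4, h5]; ring
  have hlt : F (Function.update g x k') < F g := by
    rw [key, key]
    have hR : (∑ a ∈ S.erase x, ∑ b ∈ S.erase x,
        if G.Adj a b ∧ Function.update g x k' a = Function.update g x k' b then 1 else 0) =
        (∑ a ∈ S.erase x, ∑ b ∈ S.erase x, if G.Adj a b ∧ g a = g b then 1 else 0) := by
      refine Finset.sum_congr rfl fun a ha => Finset.sum_congr rfl fun b hb => ?_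
      rw [Function.update_of_ne (Finset.ne_of_mem_erase ha),
        Function.update_of_ne (Finset.ne_of_mem_erase hb)]
    rw [hR]
    have hN : ((S.erase x).filter (fun y => G.Adj x y ∧
        Function.update g x k' y = Function.update g x k' x)).card ≤ d := by
      refine le_trans (Finset.card_le_card ?_) hk
      intro y hy
      rw [Finset.mem_filter] at hy ⊢
      obtain ⟨hy1, hy2, hy3⟩ := hy
      rw [Function.update_of_ne (Finset.ne_of_mem_erase hy1), Function.update_self] at hy3
      exact ⟨Finset.mem_of_mem_erase hy1, hy2, hy3⟩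
    have hO : d < ((S.erase x).filter (fun y => G.Adj x y ∧ g y = g x)).card := by
      refine lt_of_lt_of_le hcon (Finset.card_le_card ?_)
      intro y hy
      rw [Finset.mem_filter] at hy ⊢
      refine ⟨Finset.mem_erase.2 ⟨hy.2.1.ne', hy.1⟩, hy.2⟩
    omega
  have hadm : adm (Function.update g x k') := by
    constructor
    · intro v hv
      have : v ≠ x := fun h => hv (h ▸ hx)
      rw [Function.update_of_ne this]; exact hg1 v hv
    · intro v hv
      by_cases h : v = x
      · subst h; rw [Function.update_self]; exact hk'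
      · rw [Function.update_of_ne h]; exact hg2 v hv
  exact absurd (hmin (Function.update g x k') (by simp [hadm])) (by omega)

end Pool.Agent.Work.MP_768e99_pocket
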