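import Pool.Agent.Work.MP_768e99_pocket.Interface

/-! Block C2: induction on the number of vertices. -/

set_option autoImplicit false

namespace Pool.Agent.Work.MP_768e99_pocket

open Pool.Agent.Work.MP_768e99_co

/-- a minor of an induced subgraph is a minor of the graph -/
theorem minor_induce {V W : Type} {G : SimpleGraph V} {H : SimpleGraph W} {X : Set V}
    (h : IsMinor H (G.induce X)) : IsMinor H G := by
  obtain ⟨B, h1, h2, h3⟩ := h
  refine ⟨fun w => Subtype.val '' (B w), ?_, ?_, ?_⟩
  · intro w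
    let f : (G.induce X).induce (B w) →g G.induce (Subtype.val '' (B w)) :=
      { toFun := fun x => ⟨((x : {x // x ∈ X}) : V), ⟨(x : {x // x ∈ X}), x.2, rfl⟩⟩
        map_rel' := fun {x y} hxy => hxy }
    refine (h1 w).map f ?_
    rintro ⟨y, x, hx, rfl⟩
    exact ⟨⟨x, hx⟩, rfl⟩
  · intro w w' hww
    rw [Set.disjoint_left]
    rintro y ⟨x, hx, rfl⟩ ⟨x', hx', hxx⟩
    have : x' = x := Subtype.ext hxx
    subst this
    exact Set.disjoint_left.1 (h2 w w' hww) hx hx'
  · intro w w' hww
    obtain ⟨x, hx, y, hy, hxy⟩ := h3 w w' hww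
    exact ⟨x, ⟨x, hx, rfl⟩, y, ⟨y, hy, rfl⟩, hxy⟩

theorem C2 : B_C2 := by
  classical
  intro r s a b k d hC1 hP hbk hak
  have key : ∀ n : ℕ, ∀ (V : Type) [Fintype V] (G : SimpleGraph V), Fintype.card V = n →
      ¬ HasBicliqueMinor G r s → DefColorable G k d := by
    intro n
    induction n using Nat.strong_induction_on with
    | _ n ih =>
      intro V _ G hn hG
      rcases isEmpty_or_nonempty V with hV | hV
      · exact ⟨fun v => isEmptyElim v, fun v => isEmptyElim v⟩
      · obtain ⟨S, hS1, hS2, hS3⟩ := hP V G hG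
        have hcard : Fintype.card {v // v ∈ {v : V | v ∉ S}} < n := by
          rw [← hn]
          obtain ⟨x, hx⟩ := hS1
          exact Fintype.card_subtype_lt (x := x) (by simpa using hx)
        have hG' : ¬ HasBicliqueMinor (G.induce {v : V | v ∉ S}) r s := fun h =>
          hG (minor_induce h)
        obtain ⟨c', hc'⟩ := ih _ hcard _ (G.induce {v : V | v ∉ S}) rfl hG'
        let c : V → Fin k := fun v => if h : v ∉ S then c' ⟨v, h⟩ else ⟨0, by omega⟩
        have hc : ∀ (v : V) (h : v ∉ S), c v = c' ⟨v, h⟩ := by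
          intro v h
          simp only [c, dif_pos h]
        refine hC1 V G S k b d c ?_ hS3 hbk (hS2.trans hak)
        intro v hv
        have heq : {w | w ∉ S ∧ G.Adj v w ∧ c w = c v} =
            Subtype.val '' {w : {v // v ∈ {v : V | v ∉ S}} |
              (G.induce {v : V | v ∉ S}).Adj ⟨v, hv⟩ w ∧ c' w = c' ⟨v, hv⟩} := by
          ext w
          constructor
          · rintro ⟨h1, h2, h3⟩
            refine ⟨⟨w, h1⟩, ⟨h2, ?_⟩, rfl⟩
            rw [← hc w h1, ← hc v hv]
            exact h3
          · rintro ⟨⟨w', h1⟩, ⟨h2, h3⟩, rfl⟩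
            refine ⟨h1, h2, ?_⟩
            rw [hc w' h1, hc v hv]
            exact h3
        rw [heq]
        exact (Set.ncard_image_le (Set.toFinite _)).trans (hc' ⟨v, hv⟩)
  intro V _ G hG
  exact key _ V G rfl hG

end Pool.Agent.Work.MP_768e99_pocket
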