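import Pool.Agent.Work.MP_768e99_pocket.Interface

/-! # Block E3: Markov's inequality (helper65) -/

set_option autoImplicit false

namespace Pool.Agent.Work.MP_768e99_pocket

open Pool.Agent.Work.MP_768e99_co

/-- the number of maps with prescribed range at one point -/
theorem e3_count (V : Type) [Fintype V] [DecidableEq V] (L q : ℕ) (hq : q ≤ L) (v : V) :
    L * (Finset.univ.filter (fun f : V → Fin L => (f v : ℕ) < q)).card =
      q * L ^ Fintype.card V := by
  classical
  have h1 : Finset.univ.filter (fun f : V → Fin L => (f v : ℕ) < q) =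
      Fintype.piFinset (fun w => if w = v then Finset.univ.filter (fun a : Fin L => (a : ℕ) < q)
        else Finset.univ) := by
    ext f
    rw [Finset.mem_filter, Fintype.mem_piFinset]
    constructor
    · rintro ⟨-, hf⟩ w
      by_cases hw : w = v
      · subst hw
        rw [if_pos rfl]
        exact Finset.mem_filter.2 ⟨Finset.mem_univ _, hf⟩
      · rw [if_neg hw]
        exact Finset.mem_univ _
    · intro hf
      have h2 := hf v
      rw [if_pos rfl] at h2
      exact ⟨Finset.mem_univ _, (Finset.mem_filter.1 h2).2⟩
  have h3 : (Finset.univ.filter (fun a : Fin L => (a : ℕ) < q)).card = q := by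
    have h4 := Fin.card_filter_val_lt (n := L) (m := q)
    rw [min_eq_right hq] at h4
    exact h4
  rw [h1, Fintype.card_piFinset, ← Finset.mul_prod_erase Finset.univ _ (Finset.mem_univ v),
    if_pos rfl, h3]
  have h5 : ∏ x ∈ Finset.univ.erase v, (if x = v then
      Finset.univ.filter (fun a : Fin L => (a : ℕ) < q) else Finset.univ).card =
      L ^ (Fintype.card V - 1) := by
    rw [Finset.prod_congr rfl (g := fun _ => L) (fun x hx => by
      rw [if_neg (Finset.ne_of_mem_erase hx), Finset.card_univ, Fintype.card_fin]),
      Finset.prod_const, Finset.card_erase_of_mem (Finset.mem_univ v), Finset.card_univ]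
  rw [h5]
  have h6 : 0 < Fintype.card V := Fintype.card_pos_iff.2 ⟨v⟩
  obtain ⟨m, hm⟩ : ∃ m, Fintype.card V = m + 1 := ⟨Fintype.card V - 1, by omega⟩
  rw [hm, Nat.add_sub_cancel, pow_succ]
  ring

/-- Markov for maps `V → Fin L`, `L = 4 e q`. -/
theorem e3_markov (V : Type) [Fintype V] (e q L : ℕ) (he : 1 ≤ e) (hqpos : 0 < q)
    (hLq : L = 4 * e * q) :
    {f : V → Fin L | Fintype.card V < 2 * e * {v | (f v : ℕ) < q}.ncard}.ncard * 2 ≤
      L ^ Fintype.card V := by
  classical
  have hqL : q ≤ L := by
    rw [hLq]
    nlinarith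
  -- the bad set
  have hB : {f : V → Fin L | Fintype.card V < 2 * e * {v | (f v : ℕ) < q}.ncard}.ncard =
      (Finset.univ.filter (fun f : V → Fin L =>
        Fintype.card V < 2 * e * (Finset.univ.filter (fun v => (f v : ℕ) < q)).card)).card := by
    rw [← Set.ncard_coe_finset]
    congr 1
    ext f
    have h1 : {v | (f v : ℕ) < q}.ncard = (Finset.univ.filter (fun v => (f v : ℕ) < q)).card := by
      rw [← Set.ncard_coe_finset]
      congr 1
      ext v
      simp
    simp only [Set.mem_setOf_eq, Finset.coe_filter, Finset.mem_univ, true_and]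
    rw [h1]
  rw [hB]
  have hmk : (Finset.univ.filter (fun f : V → Fin L =>
        Fintype.card V < 2 * e * (Finset.univ.filter (fun v => (f v : ℕ) < q)).card)).card *
        (Fintype.card V + 1) ≤
      2 * e * ∑ f : V → Fin L, (Finset.univ.filter (fun v => (f v : ℕ) < q)).card := by
    rw [← smul_eq_mul _ (Fintype.card V + 1), ← Finset.sum_const, Finset.mul_sum]
    refine le_trans (Finset.sum_le_sum fun f hf => ?_)
      (Finset.sum_le_sum_of_subset (f := fun f : V → Fin L =>
        2 * e * (Finset.univ.filter (fun v => (f v : ℕ) < q)).card)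
        (Finset.filter_subset _ _))
    exact (Finset.mem_filter.1 hf).2
  have hsum : ∑ f : V → Fin L, (Finset.univ.filter (fun v => (f v : ℕ) < q)).card =
      ∑ v : V, (Finset.univ.filter (fun f : V → Fin L => (f v : ℕ) < q)).card := by
    simp only [Finset.card_filter]
    exact Finset.sum_comm
  have hsum2 : L * ∑ f : V → Fin L, (Finset.univ.filter (fun v => (f v : ℕ) < q)).card =
      Fintype.card V * (q * L ^ Fintype.card V) := by
    rw [hsum, Finset.mul_sum, Finset.sum_congr rfl (fun v _ => e3_count V L q hqL v),
      Finset.sum_const, Finset.card_univ, smul_eq_mul]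
  generalize (∑ f : V → Fin L, (Finset.univ.filter (fun v => (f v : ℕ) < q)).card) = X at *
  generalize (Finset.univ.filter (fun f : V → Fin L =>
        Fintype.card V < 2 * e * (Finset.univ.filter (fun v => (f v : ℕ) < q)).card)).card = b at *
  generalize Fintype.card V = n at *
  have hLpos : 0 < L := by omega
  rcases Nat.eq_zero_or_pos n with h0 | hpos
  · subst h0
    rw [zero_mul] at hsum2
    have hX : X = 0 := by
      rcases Nat.mul_eq_zero.1 hsum2 with h | h
      · omega
      · exact h
    rw [hX, mul_zero] at hmk
    have hb : b = 0 := by omega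
    rw [hb, zero_mul]
    exact Nat.zero_le _
  · have h1 : q * (4 * e * X) = q * (n * L ^ n) := by
      calc q * (4 * e * X) = (4 * e * q) * X := by ring
        _ = L * X := by rw [hLq]
        _ = n * (q * L ^ n) := hsum2
        _ = _ := by ring
    have h2 : 4 * e * X = n * L ^ n := Nat.eq_of_mul_eq_mul_left hqpos h1
    have h3 : n * (b * 2) ≤ n * L ^ n := by
      rw [← h2]
      nlinarith
    exact Nat.le_of_mul_le_mul_left h3 hpos

theorem E3 : B_E3 := by
  intro V _ e r lam he hr
  exact e3_markov V e (r * (lam + 1)) (numL e r lam) he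
    (Nat.mul_pos (by omega) (Nat.succ_pos _)) (by unfold numL; ring)

end Pool.Agent.Work.MP_768e99_pocket
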