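import Pool.Agent.Work.MP_768e99_pocket.Interface

/-!
# Hall's theorem for the root map
-/

set_option autoImplicit false

namespace Pool.Agent.Work.MP_768e99_pocket

open Pool.Agent.Work.MP_768e99_co

theorem H1 : B_H1 := by
  classical
  intro V _ G S R h
  let N : {w // w ∈ R} → Finset (V × Fin 2) :=
    fun w => (S.filter (fun v => G.Adj w.1 v)) ×ˢ Finset.univ
  have hall : ∀ T : Finset {w // w ∈ R}, T.card ≤ (T.biUnion N).card := by
    intro T
    have h1 := h (T.map (Function.Embedding.subtype _)) (by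
      intro w hw
      rw [Finset.mem_map] at hw
      obtain ⟨w', _, rfl⟩ := hw
      exact w'.2)
    rw [Finset.card_map] at h1
    have h2 : T.biUnion N =
        (T.biUnion (fun w => S.filter (fun v => G.Adj w.1 v))) ×ˢ Finset.univ := by
      ext ⟨v, i⟩
      simp [N]
    have h3 : {v | v ∈ S ∧ ∃ w ∈ T.map (Function.Embedding.subtype (fun w => w ∈ R)), G.Adj w v} =
        ((T.biUnion (fun w => S.filter (fun v => G.Adj w.1 v)) : Finset V) : Set V) := by
      ext v
      simp only [Set.mem_ofPred_eq, Finset.mem_map, Finset.mem_coe, Finset.mem_biUnion,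
        Finset.mem_filter]
      constructor
      · rintro ⟨hv, w, ⟨w', hw', rfl⟩, hadj⟩
        exact ⟨w', hw', hv, hadj⟩
      · rintro ⟨w', hw', hv, hadj⟩
        exact ⟨hv, w'.1, ⟨w', hw', rfl⟩, hadj⟩
    rw [h3, Set.ncard_coe_finset] at h1
    rw [h2, Finset.card_product, Finset.card_univ, Fintype.card_fin]
    omega
  obtain ⟨f, hinj, hf⟩ := (Finset.all_card_le_biUnion_card_iff_exists_injective N).1 hall
  refine ⟨fun w => if hw : w ∈ R then (f ⟨w, hw⟩).1 else w, ?_, ?_⟩
  · intro w hw
    have h4 := hf ⟨w, hw⟩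
    simp only [N, Finset.mem_product, Finset.mem_filter, Finset.mem_univ, and_true] at h4
    simp only [hw, dif_pos]
    exact h4
  · intro v
    let g : V → Fin 2 := fun w => if hw : w ∈ R then (f ⟨w, hw⟩).2 else 0
    have h5 : Set.InjOn g {w | w ∈ R ∧ (if hw : w ∈ R then (f ⟨w, hw⟩).1 else w) = v} := by
      rintro w ⟨hw, hwv⟩ w' ⟨hw', hwv'⟩ heq
      simp only [hw, dif_pos] at hwv
      simp only [hw', dif_pos] at hwv'
      simp only [g, hw, hw', dif_pos] at heq
      have h6 : f ⟨w, hw⟩ = f ⟨w', hw'⟩ := Prod.ext (hwv.trans hwv'.symm) heq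
      have h7 := hinj h6
      exact congrArg Subtype.val h7
    have h8 := Set.ncard_le_ncard_of_injOn g (t := (Set.univ : Set (Fin 2)))
      (fun a _ => Set.mem_univ _) h5 (Set.finite_univ)
    rw [Set.ncard_univ, Nat.card_eq_fintype_card, Fintype.card_fin] at h8
    exact h8

end Pool.Agent.Work.MP_768e99_pocket
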