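import Pool.Agent.Work.MP_768e99_pocket.Interface

/-!
# Block I1 (helper94): product counting
-/

set_option autoImplicit false

namespace Pool.Agent.Work.MP_768e99_pocket

open Pool.Agent.Work.MP_768e99_co

namespace I1aux

open Classical in
/-- The box of maps avoiding the constant `t` on the members of `F`. -/
noncomputable def T {V : Type} [Fintype V] {M : ℕ} (A : V → Finset (Fin M)) (t : Fin M)
    (F : Finset (Finset V)) : Finset (V → Fin M) :=
  Finset.univ.filter (fun f => (∀ v, f v ∈ A v) ∧ ∀ c ∈ F, ∃ v ∈ c, f v ≠ t)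

lemma mem_T {V : Type} [Fintype V] {M : ℕ} {A : V → Finset (Fin M)} {t : Fin M}
    {F : Finset (Finset V)} {f : V → Fin M} :
    f ∈ T A t F ↔ (∀ v, f v ∈ A v) ∧ ∀ c ∈ F, ∃ v ∈ c, f v ≠ t := by
  simp [T]

lemma step {V : Type} [Fintype V] [DecidableEq V] {M : ℕ} (A : V → Finset (Fin M)) (t : Fin M)
    (F : Finset (Finset V)) (c : Finset V) (hc : c.card ≤ 2) (hd : ∀ c' ∈ F, Disjoint c c')
    (ht : ∀ v ∈ c, t ∈ A v) :
    (T A t (insert c F)).card * M ^ 2 ≤ (M ^ 2 - 1) * (T A t F).card := by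
  classical
  have hM : 1 ≤ M := t.pos
  set B := (T A t F).filter (fun f => ∀ v ∈ c, f v = t) with hB
  have h1 : T A t (insert c F) = (T A t F).filter (fun f => ¬ ∀ v ∈ c, f v = t) := by
    ext f
    rw [mem_T, Finset.mem_filter, mem_T]
    constructor
    · rintro ⟨h1, h2⟩
      refine ⟨⟨h1, fun c' hc' => h2 c' (Finset.mem_insert_of_mem hc')⟩, fun h3 => ?_⟩
      obtain ⟨v, hv, hne⟩ := h2 c (Finset.mem_insert_self _ _)
      exact hne (h3 v hv)
    · rintro ⟨⟨h1, h2⟩, h3⟩
      refine ⟨h1, fun c' hc' => ?_⟩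
      rcases Finset.mem_insert.1 hc' with rfl | hc'
      · push Not at h3
        exact h3
      · exact h2 c' hc'
  have h2 : B.card + (T A t (insert c F)).card = (T A t F).card := by
    rw [h1, hB]
    exact Finset.card_filter_add_card_filter_not _
  have h3 : (T A t F).card ≤ B.card * M ^ c.card := by
    have e1 : (B ×ˢ (Finset.univ : Finset ({v // v ∈ c} → Fin M))).card = B.card * M ^ c.card := by
      rw [Finset.card_product, Finset.card_univ, Fintype.card_fun, Fintype.card_fin,
        Fintype.card_coe]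
    rw [← e1]
    refine Finset.card_le_card_of_injOn
      (fun f => (fun v => if v ∈ c then t else f v, fun v : {v // v ∈ c} => f v.1)) ?_ ?_
    · intro f hf
      rw [Finset.mem_coe, mem_T] at hf
      rw [Finset.mem_coe, Finset.mem_product]
      refine ⟨?_, Finset.mem_univ _⟩
      rw [hB, Finset.mem_filter, mem_T]
      refine ⟨⟨fun v => ?_, fun c' hc' => ?_⟩, fun v hv => by simp only [hv, if_true]⟩
      · by_cases hv : v ∈ c
        · simp only [hv, if_true]; exact ht v hv
        · simp only [hv, if_false]; exact hf.1 v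
      · obtain ⟨v, hv, hne⟩ := hf.2 c' hc'
        have : v ∉ c := fun hv' => (Finset.disjoint_left.1 (hd c' hc')) hv' hv
        exact ⟨v, hv, by simp only [this, if_false]; exact hne⟩
    · intro f _ g _ hfg
      have e2 := congrArg Prod.fst hfg
      have e3 := congrArg Prod.snd hfg
      funext v
      by_cases hv : v ∈ c
      · exact congrFun e3 ⟨v, hv⟩
      · have := congrFun e2 v
        simpa only [hv, if_false] using this
  have h4 : M ^ c.card ≤ M ^ 2 := Nat.pow_le_pow_right hM hc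
  have h5 : (T A t F).card ≤ B.card * M ^ 2 := h3.trans (Nat.mul_le_mul_left _ h4)
  have h6 : 1 ≤ M ^ 2 := Nat.one_le_pow _ _ hM
  obtain ⟨k, hk⟩ : ∃ k, M ^ 2 = k + 1 := ⟨M ^ 2 - 1, by omega⟩
  rw [hk, Nat.add_sub_cancel]
  rw [hk] at h5
  nlinarith

end I1aux

open I1aux in
theorem I1 : B_I1 := by
  intro V _ _ M A t F hF hdis ht
  classical
  have key : ∀ F : Finset (Finset V), (∀ c ∈ F, c.card ≤ 2) →
      (∀ c ∈ F, ∀ c' ∈ F, c ≠ c' → Disjoint c c') → (∀ c ∈ F, ∀ v ∈ c, t ∈ A v) →
      (T A t F).card * (M ^ 2) ^ F.card ≤ (M ^ 2 - 1) ^ F.card * (T A t ∅).card := by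
    intro F
    induction F using Finset.induction_on with
    | empty => intro _ _ _; simp
    | insert c F hc ih =>
      intro h1 h2 h3
      have e1 := step A t F c (h1 c (Finset.mem_insert_self _ _))
        (fun c' hc' => h2 c (Finset.mem_insert_self _ _) c' (Finset.mem_insert_of_mem hc')
          (fun h => hc (h ▸ hc'))) (h3 c (Finset.mem_insert_self _ _))
      have e2 := ih (fun c' hc' => h1 c' (Finset.mem_insert_of_mem hc'))
        (fun a ha b hb => h2 a (Finset.mem_insert_of_mem ha) b (Finset.mem_insert_of_mem hb))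
        (fun c' hc' => h3 c' (Finset.mem_insert_of_mem hc'))
      rw [Finset.card_insert_of_notMem hc, pow_succ, pow_succ]
      calc (T A t (insert c F)).card * ((M ^ 2) ^ F.card * M ^ 2)
          = ((T A t (insert c F)).card * M ^ 2) * (M ^ 2) ^ F.card := by ring
        _ ≤ ((M ^ 2 - 1) * (T A t F).card) * (M ^ 2) ^ F.card := Nat.mul_le_mul_right _ e1
        _ = (M ^ 2 - 1) * ((T A t F).card * (M ^ 2) ^ F.card) := mul_assoc _ _ _
        _ ≤ (M ^ 2 - 1) * ((M ^ 2 - 1) ^ F.card * (T A t ∅).card) := Nat.mul_le_mul_left _ e2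
        _ = (M ^ 2 - 1) ^ F.card * (M ^ 2 - 1) * (T A t ∅).card := by
            rw [← mul_assoc, mul_comm (M ^ 2 - 1) ((M ^ 2 - 1) ^ F.card)]
  have e1 : {f : V → Fin M | (∀ v, f v ∈ A v) ∧ ∀ c ∈ F, ∃ v ∈ c, f v ≠ t}.ncard =
      (T A t F).card := by
    rw [← Set.ncard_coe_finset]
    congr 1
    ext f
    rw [Finset.mem_coe, mem_T]
    rfl
  have e2 : {f : V → Fin M | ∀ v, f v ∈ A v}.ncard = (T A t ∅).card := by
    rw [← Set.ncard_coe_finset]
    congr 1
    ext f
    rw [Finset.mem_coe, mem_T]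
    simp
  rw [e1, e2]
  exact key F hF hdis ht

end Pool.Agent.Work.MP_768e99_pocket
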