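import Pool.Agent.Work.MP_768e99_pocket.Interface

/-! # Block M2: Hall's condition (helper17) -/

set_option autoImplicit false

namespace Pool.Agent.Work.MP_768e99_pocket

open Pool.Agent.Work.MP_768e99_co

theorem M2 : B_M2 := by
  intro hN1 V _ G rho s S hrho hs hrS hmin T hT
  classical
  obtain ⟨hsub, hmono, hle, hnn⟩ := hN1
  obtain ⟨hSne, hlt, hmin⟩ := hmin
  set A : Finset V := S.filter (fun v => ∃ w ∈ T, G.Adj w v) with hA
  have hAset : {v | v ∈ S ∧ ∃ w ∈ T, G.Adj w v} = (↑A : Set V) := by
    ext v
    simp [hA]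
  rw [hAset, Set.ncard_coe_finset]
  by_contra hcon
  push Not at hcon
  have hsR : (1 : ℝ) ≤ s := by exact_mod_cast hs
  have hspos : (0 : ℝ) < s := by linarith
  have hAS : A ⊆ S := Finset.filter_subset _ _
  have hTne : T.Nonempty := by
    rw [← Finset.card_pos]
    omega
  have hAne : A.Nonempty := by
    obtain ⟨w, hw⟩ := hTne
    have hw' := hT hw
    rw [mem_nb] at hw'
    obtain ⟨_, a, ha, hadj⟩ := hw'
    exact ⟨a, Finset.mem_filter.2 ⟨ha, w, hw, hadj.symm⟩⟩
  have hcardS : (S \ A).card + A.card = S.card := Finset.card_sdiff_add_card_eq_card hAS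
  have hApos : 0 < A.card := Finset.card_pos.2 hAne
  have hconR : 2 * (A.card : ℝ) + 1 ≤ T.card := by exact_mod_cast hcon
  have hTle : T.card ≤ (nb G S).card := Finset.card_le_card hT
  have hTleR : (T.card : ℝ) ≤ (nb G S).card := by exact_mod_cast hTle
  unfold phi at hlt hmin
  rcases Finset.eq_empty_or_nonempty (S \ A) with hemp | hne
  · -- the set `A` is everything
    have hAS' : A.card = S.card := by rw [hemp, Finset.card_empty, zero_add] at hcardS; exact hcardS
    have h1 : psi S.card / s ≤ S.card := by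
      rw [div_le_iff₀ hspos]
      have h2 := hle S.card
      have h3 : (0 : ℝ) ≤ S.card := Nat.cast_nonneg _
      nlinarith
    rw [hAS'] at hconR
    linarith
  · have hlt' : (S \ A).card < S.card := by omega
    have h1 := hmin (S \ A) hne hlt'
    -- the neighbourhood of `S \ A`
    have hsubn : nb G (S \ A) ⊆ (nb G S \ T) ∪ A := by
      intro v hv
      rw [mem_nb] at hv
      obtain ⟨hv1, a, ha, hadj⟩ := hv
      rw [Finset.mem_union]
      by_cases hvS : v ∈ S
      · right
        by_contra hvA
        exact hv1 (Finset.mem_sdiff.2 ⟨hvS, hvA⟩)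
      · left
        rw [Finset.mem_sdiff] at ha ⊢
        refine ⟨mem_nb.2 ⟨hvS, a, ha.1, hadj⟩, fun hvT => ha.2 ?_⟩
        exact Finset.mem_filter.2 ⟨ha.1, v, hvT, hadj.symm⟩
    have hc1 : (nb G (S \ A)).card ≤ (nb G S \ T).card + A.card :=
      (Finset.card_le_card hsubn).trans (Finset.card_union_le _ _)
    have hc2 : (nb G S \ T).card + T.card = (nb G S).card := Finset.card_sdiff_add_card_eq_card hT
    have hc1R : ((nb G (S \ A)).card : ℝ) ≤ (nb G S \ T).card + A.card := by exact_mod_cast hc1
    have hc2R : ((nb G S \ T).card : ℝ) + T.card = (nb G S).card := by exact_mod_cast hc2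
    have hpsi : psi S.card ≤ psi (S \ A).card + psi A.card := by
      rw [← hcardS]
      exact hsub _ _
    have hpsiA : psi A.card / s ≤ A.card := by
      rw [div_le_iff₀ hspos]
      have h2 := hle A.card
      have h3 : (0 : ℝ) ≤ A.card := Nat.cast_nonneg _
      nlinarith
    have hdiv : psi S.card / s ≤ psi (S \ A).card / s + psi A.card / s := by
      rw [← add_div]
      exact div_le_div_of_nonneg_right hpsi hspos.le
    linarith

end Pool.Agent.Work.MP_768e99_pocket
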