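import Pool.Agent.Work.MP_768e99_pocket.Interface

set_option autoImplicit false

namespace Pool.Agent.Work.MP_768e99_pocket

open Pool.Agent.Work.MP_768e99_co

theorem M3 : B_M3 := by
  classical
  intro hN hS V _ G k s S t hs hmin hk hroot A hA hb
  obtain ⟨b, hbA, hbN⟩ := hb
  obtain ⟨hadd, hmono, hle, hnn⟩ := hN
  obtain ⟨hSne, hlt, hall⟩ := hmin
  set X := nb (cg G S (nb G S) t) A with hX
  set A₂ : Finset {x // x ∈ S} := Finset.univ.filter (fun v => v ∉ A ∧ v ∉ X) with hA₂
  have hmem : ∀ v, v ∈ A₂ ↔ v ∉ A ∧ v ∉ X := by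
    intro v; simp [hA₂]
  have hsep := hS V G S t hroot A A₂ hmem
  rw [← hX] at hsep
  -- cardinalities
  have hcS : Fintype.card {x // x ∈ S} = S.card := Fintype.card_coe S
  have hdis1 : Disjoint A X := by
    rw [Finset.disjoint_left]; intro v hv hv'
    rw [hX, mem_nb] at hv'; exact hv'.1 hv
  have hdis2 : Disjoint (A ∪ X) A₂ := by
    rw [Finset.disjoint_left]; intro v hv hv'
    rw [hmem] at hv'
    rcases Finset.mem_union.1 hv with h | h
    · exact hv'.1 h
    · exact hv'.2 h
  have hun : (A ∪ X) ∪ A₂ = Finset.univ := by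
    ext v
    simp only [Finset.mem_union, Finset.mem_univ, iff_true]
    by_cases h1 : v ∈ A
    · exact Or.inl (Or.inl h1)
    · by_cases h2 : v ∈ X
      · exact Or.inl (Or.inr h2)
      · exact Or.inr ((hmem v).2 ⟨h1, h2⟩)
  have hcard : A.card + X.card + A₂.card = S.card := by
    rw [← hcS, ← Finset.card_univ, ← hun, Finset.card_union_of_disjoint hdis2,
      Finset.card_union_of_disjoint hdis1]
  have hA1 : 0 < A.card := hA.card_pos
  have hA2 : 0 < A₂.card := Finset.card_pos.2 ⟨b, (hmem b).2 ⟨hbA, hbN⟩⟩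
  have hm1 : (A.map (Function.Embedding.subtype _)).card = A.card := Finset.card_map _
  have hm2 : (A₂.map (Function.Embedding.subtype _)).card = A₂.card := Finset.card_map _
  have h1 := hall (A.map (Function.Embedding.subtype _))
    (Finset.map_nonempty.2 hA) (by rw [hm1]; omega)
  have h2 := hall (A₂.map (Function.Embedding.subtype _))
    (Finset.map_nonempty.2 (Finset.card_pos.1 hA2)) (by rw [hm2]; omega)
  rw [hm1] at h1
  rw [hm2] at h2
  have hsepR : ((nb G (A.map (Function.Embedding.subtype _))).card : ℝ) +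
      ((nb G (A₂.map (Function.Embedding.subtype _))).card : ℝ) ≤
      4 * (X.card : ℝ) + ((nb G S).card : ℝ) := by exact_mod_cast hsep
  have hsub : psi S.card ≤ psi A.card + psi A₂.card + psi X.card := by
    have e1 := hadd (A.card + X.card) A₂.card
    have e2 := hadd A.card X.card
    rw [hcard] at e1
    linarith
  have hsR : (1 : ℝ) ≤ (s : ℝ) := by exact_mod_cast hs
  have hspos : (0 : ℝ) < (s : ℝ) := by linarith
  have hXs : psi X.card / s ≤ X.card := by
    rw [div_le_iff₀ hspos]
    have := hle X.card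
    have h0 : (0 : ℝ) ≤ X.card := Nat.cast_nonneg _
    nlinarith
  have hdiv : psi S.card / s ≤ psi A.card / s + psi A₂.card / s + psi X.card / s := by
    rw [← add_div, ← add_div]
    exact div_le_div_of_nonneg_right hsub hspos.le
  unfold phi at h1 h2 hlt
  have key : ((5 * k : ℕ) : ℝ) < 5 * (X.card : ℝ) := by linarith
  have : 5 * k < 5 * X.card := by exact_mod_cast key
  show k < X.card
  omega

end Pool.Agent.Work.MP_768e99_pocket
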