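import Pool.Agent.Work.MP_768e99_pocket.Interface

set_option autoImplicit false

namespace Pool.Agent.Work.MP_768e99_pocket

open Pool.Agent.Work.MP_768e99_co

theorem M4 : B_M4 := by
  classical
  intro _ hN2 hS V _ G rho s S t hrho hs hmin hroot A hA1 hA2
  obtain ⟨hSne, hlt, hall⟩ := hmin
  set X := nb (cg G S (nb G S) t) A with hX
  set A₂ : Finset {x // x ∈ S} := Finset.univ.filter (fun v => v ∉ A ∧ v ∉ X) with hA₂
  have hmem : ∀ v, v ∈ A₂ ↔ v ∉ A ∧ v ∉ X := by
    intro v; simp [hA₂]
  have hsep := hS V G S t hroot A A₂ hmem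
  rw [← hX] at hsep
  have hcS : Fintype.card {x // x ∈ S} = S.card := Fintype.card_coe S
  have hdis1 : Disjoint A X := by
    rw [Finset.disjoint_left]; intro v hv hv'
    rw [hX, mem_nb] at hv'; exact hv'.1 hv
  have hdis2 : Disjoint (A ∪ X) A₂ := by
    rw [Finset.disjoint_left]; intro v hv hv'
    rw [hmem] at hv'
    rcases Finset.mem_union.1 hv with h | h
    · exact hv'.1 h
    · exact hv'.2 h
  have hun : (A ∪ X) ∪ A₂ = Finset.univ := by
    ext v
    simp only [Finset.mem_union, Finset.mem_univ, iff_true]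
    by_cases h1 : v ∈ A
    · exact Or.inl (Or.inl h1)
    · by_cases h2 : v ∈ X
      · exact Or.inl (Or.inr h2)
      · exact Or.inr ((hmem v).2 ⟨h1, h2⟩)
  have hcard : A.card + X.card + A₂.card = S.card := by
    rw [← hcS, ← Finset.card_univ, ← hun, Finset.card_union_of_disjoint hdis2,
      Finset.card_union_of_disjoint hdis1]
  have hS1 : 1 ≤ S.card := hSne.card_pos
  by_contra hcon
  rw [not_lt] at hcon
  obtain ⟨ha2, hgain⟩ := hN2 A.card A₂.card X.card S.card s hs hS1 hcard hA1 hA2 hcon
  have hm1 : (A.map (Function.Embedding.subtype _)).card = A.card := Finset.card_map _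
  have hm2 : (A₂.map (Function.Embedding.subtype _)).card = A₂.card := Finset.card_map _
  have hA0 : 0 < A.card := by omega
  have h1 := hall (A.map (Function.Embedding.subtype _))
    (Finset.map_nonempty.2 (Finset.card_pos.1 hA0)) (by rw [hm1]; omega)
  have h2 := hall (A₂.map (Function.Embedding.subtype _))
    (Finset.map_nonempty.2 (Finset.card_pos.1 ha2)) (by rw [hm2]; omega)
  rw [hm1] at h1
  rw [hm2] at h2
  have hsepR : ((nb G (A.map (Function.Embedding.subtype _))).card : ℝ) +
      ((nb G (A₂.map (Function.Embedding.subtype _))).card : ℝ) ≤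
      4 * (X.card : ℝ) + ((nb G S).card : ℝ) := by exact_mod_cast hsep
  have hsR : (1 : ℝ) ≤ (s : ℝ) := by exact_mod_cast hs
  have hspos : (0 : ℝ) < (s : ℝ) := by linarith
  have hdiv : psi S.card / s + 4 * X.card ≤ psi A.card / s + psi A₂.card / s := by
    have h3 : (psi S.card + 4 * s * X.card) / s ≤ (psi A.card + psi A₂.card) / s :=
      div_le_div_of_nonneg_right hgain hspos.le
    have h4 : (psi S.card + 4 * s * X.card) / s = psi S.card / s + 4 * X.card := by
      field_simp
    rw [h4, add_div] at h3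
    exact h3
  unfold phi at h1 h2 hlt
  linarith

end Pool.Agent.Work.MP_768e99_pocket
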