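import Pool.Agent.Work.MP_768e99_pocket.Interface

set_option autoImplicit false

namespace Pool.Agent.Work.MP_768e99_pocket

open Pool.Agent.Work.MP_768e99_co

theorem N1 : B_N1 := by
  refine ⟨?_, ?_, ?_, ?_⟩
  · intro a b
    unfold psi
    push_cast
    exact Real.rpow_add_le_add_rpow (Nat.cast_nonneg a) (Nat.cast_nonneg b) (by norm_num)
      (by norm_num)
  · intro a b hab
    unfold psi
    exact Real.rpow_le_rpow (Nat.cast_nonneg a) (by exact_mod_cast hab) (by norm_num)
  · intro a
    unfold psi
    rcases Nat.eq_zero_or_pos a with h | h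
    · subst h
      rw [Nat.cast_zero, Real.zero_rpow (by norm_num)]
    · calc (a : ℝ) ^ ((3 : ℝ) / 4) ≤ (a : ℝ) ^ (1 : ℝ) :=
            Real.rpow_le_rpow_of_exponent_le (by exact_mod_cast h) (by norm_num)
        _ = a := Real.rpow_one _
  · intro a
    unfold psi
    positivity

end Pool.Agent.Work.MP_768e99_pocket
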