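import Pool.Agent.Work.MP_768e99_pocket.Interface

/-!
# The gain from a balanced separation
-/

set_option autoImplicit false

namespace Pool.Agent.Work.MP_768e99_pocket

lemma n2_root (a : ℕ) : ∃ u : ℝ, 0 ≤ u ∧ u ^ 4 = a ∧ u ^ 3 = psi a := by
  refine ⟨(a : ℝ) ^ ((1 : ℝ) / 4), by positivity, ?_, ?_⟩
  · rw [← Real.rpow_natCast, ← Real.rpow_mul (by positivity)]
    norm_num
  · rw [psi, ← Real.rpow_natCast, ← Real.rpow_mul (by positivity)]
    norm_num

theorem N2 : B_N2 := by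
  intro a a₂ t x s hs hx hsum h1 h2 h3
  obtain ⟨y, hy0, hy4, hy3⟩ := n2_root x
  obtain ⟨u, hu0, hu4, hu3⟩ := n2_root a
  obtain ⟨v, hv0, hv4, hv3⟩ := n2_root a₂
  have hx' : (1 : ℝ) ≤ x := by exact_mod_cast hx
  have hs' : (1 : ℝ) ≤ s := by exact_mod_cast hs
  have ht' : (0 : ℝ) ≤ t := by positivity
  have hsum' : (a : ℝ) + t + a₂ = x := by exact_mod_cast hsum
  have h1' : (x : ℝ) ≤ 3 * a := by exact_mod_cast h1
  have h2' : 3 * (a : ℝ) ≤ 2 * x := by exact_mod_cast h2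
  have hy1 : 1 ≤ y := by
    by_contra hcon
    have h4 : y ^ 4 < 1 := pow_lt_one₀ hy0 (not_le.1 hcon) (by norm_num)
    linarith
  rw [← hy3] at h3 ⊢
  rw [← hu3, ← hv3]
  have hyle : y ^ 3 ≤ y ^ 4 := pow_le_pow_right₀ hy1 (by norm_num)
  have hst : (t : ℝ) ≤ s * t := by nlinarith
  have ht : 50 * (t : ℝ) ≤ x := by rw [← hy4]; nlinarith
  have ha2 : (0 : ℝ) < a₂ := by linarith
  refine ⟨?_, ?_⟩
  · have : 0 < a₂ := by exact_mod_cast ha2
    omega
  · have hc : (2 : ℝ) / 3 ≤ (0.9074 : ℝ) ^ 4 := by norm_num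
    have hub : u ≤ 0.9074 * y := by
      refine le_of_pow_le_pow_left₀ (n := 4) (by norm_num) (by positivity) ?_
      rw [mul_pow, hu4, hy4]
      nlinarith
    have hvb : v ≤ 0.9074 * y := by
      refine le_of_pow_le_pow_left₀ (n := 4) (by norm_num) (by positivity) ?_
      rw [mul_pow, hv4, hy4]
      nlinarith
    have e1 : u ^ 4 ≤ u ^ 3 * (0.9074 * y) := by
      have : u ^ 4 = u ^ 3 * u := by ring
      rw [this]
      exact mul_le_mul_of_nonneg_left hub (by positivity)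
    have e2 : v ^ 4 ≤ v ^ 3 * (0.9074 * y) := by
      have : v ^ 4 = v ^ 3 * v := by ring
      rw [this]
      exact mul_le_mul_of_nonneg_left hvb (by positivity)
    have e3 : (49 / 50 : ℝ) * y ^ 4 ≤ (u ^ 3 + v ^ 3) * (0.9074 * y) := by
      rw [hu4] at e1
      rw [hv4] at e2
      rw [hy4]
      linarith
    have hy' : (0 : ℝ) < 0.9074 * y := by positivity
    have e4 : (1.08 * y ^ 3) * (0.9074 * y) ≤ (u ^ 3 + v ^ 3) * (0.9074 * y) := by
      refine le_trans ?_ e3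
      have : (1.08 * y ^ 3) * (0.9074 * y) = 0.979992 * y ^ 4 := by ring
      rw [this]
      nlinarith [pow_nonneg hy0 4]
    have e5 := le_of_mul_le_mul_right e4 hy'
    nlinarith

end Pool.Agent.Work.MP_768e99_pocket
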