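import Pool.Agent.Work.MP_768e99_pocket.Interface

set_option autoImplicit false

namespace Pool.Agent.Work.MP_768e99_pocket

open Pool.Agent.Work.MP_768e99_co

/-- `(q-1)^q * 2 ≤ q^q` -/
lemma half_pow (q : ℕ) (hq : 1 ≤ q) : (q - 1) ^ q * 2 ≤ q ^ q := by
  obtain ⟨p, rfl⟩ : ∃ p, q = p + 1 := ⟨q - 1, by omega⟩
  simp only [Nat.add_sub_cancel]
  have h1 : p ^ (p + 1) + (p + 1) * p ^ p ≤ (p + 1) ^ (p + 1) := by
    rw [add_pow p 1 (p + 1), Finset.sum_range_succ, Finset.sum_range_succ]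
    simp only [one_pow, mul_one, Nat.choose_self, Nat.cast_one, Nat.choose_succ_self_right,
      Nat.cast_add, Nat.cast_id]
    have := Nat.zero_le (∑ x ∈ Finset.range p, p ^ x * ((p + 1).choose x))
    nlinarith
  have h2 : p ^ (p + 1) ≤ (p + 1) * p ^ p := by
    rw [pow_succ']
    exact Nat.mul_le_mul_right _ (by omega)
  omega

theorem N3 : B_N3 := by
  intro q L m N B hq hm hB
  have h1 : (q - 1) ^ (3 * q * L) * 2 ^ (3 * L) ≤ q ^ (3 * q * L) := by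
    have h := Nat.pow_le_pow_left (half_pow q hq) (3 * L)
    rw [mul_pow, ← pow_mul, ← pow_mul] at h
    have e : q * (3 * L) = 3 * q * L := by ring
    rw [e] at h
    exact h
  have h2 : (q - 1) ^ m * 2 ^ (3 * L) ≤ q ^ m := by
    obtain ⟨t, rfl⟩ : ∃ t, m = 3 * q * L + t := ⟨m - 3 * q * L, by omega⟩
    rw [pow_add, pow_add]
    calc (q - 1) ^ (3 * q * L) * (q - 1) ^ t * 2 ^ (3 * L) =
        (q - 1) ^ (3 * q * L) * 2 ^ (3 * L) * (q - 1) ^ t := by ring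
      _ ≤ q ^ (3 * q * L) * q ^ t := Nat.mul_le_mul h1 (Nat.pow_le_pow_left (by omega) t)
  have hpos : 0 < q ^ m := Nat.pow_pos (by omega)
  refine Nat.le_of_mul_le_mul_right ?_ hpos
  calc B * 2 ^ (3 * L) * q ^ m = B * q ^ m * 2 ^ (3 * L) := by ring
    _ ≤ (q - 1) ^ m * N * 2 ^ (3 * L) := Nat.mul_le_mul_right _ hB
    _ = (q - 1) ^ m * 2 ^ (3 * L) * N := by ring
    _ ≤ q ^ m * N := Nat.mul_le_mul_right _ h2
    _ = N * q ^ m := by ring

end Pool.Agent.Work.MP_768e99_pocket
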