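import Pool.Agent.Work.MP_768e99_pocket.N2

/-!
# The parameters for the separator theorem when `x ≥ s^20`

With `q` the integer part of `x^(1/4)` take `l = 200 s q` and `lam = 4 q`.
-/

set_option autoImplicit false

namespace Pool.Agent.Work.MP_768e99_pocket

lemma n5_root (x : ℕ) : ∃ q : ℕ, q ^ 4 ≤ x ∧ x < (q + 1) ^ 4 := by
  refine ⟨Nat.sqrt (Nat.sqrt x), ?_, ?_⟩
  · calc Nat.sqrt (Nat.sqrt x) ^ 4 = (Nat.sqrt (Nat.sqrt x) ^ 2) ^ 2 := by ring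
      _ ≤ (Nat.sqrt x) ^ 2 := Nat.pow_le_pow_left (Nat.sqrt_le' _) 2
      _ ≤ x := Nat.sqrt_le' _
  · have h1 : x < (Nat.sqrt x + 1) ^ 2 := Nat.lt_succ_sqrt' x
    have h2 : Nat.sqrt x < (Nat.sqrt (Nat.sqrt x) + 1) ^ 2 := Nat.lt_succ_sqrt' _
    calc x < (Nat.sqrt x + 1) ^ 2 := h1
      _ ≤ ((Nat.sqrt (Nat.sqrt x) + 1) ^ 2) ^ 2 := Nat.pow_le_pow_left h2 2
      _ = (Nat.sqrt (Nat.sqrt x) + 1) ^ 4 := by ring

theorem N5 : B_N5 := by
  intro s h x hs hh hx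
  obtain ⟨q, hq1, hq2⟩ := n5_root x
  have hs1 : 1 ≤ s := le_trans (by norm_num) hs
  -- `s ^ 5 ≤ q`
  have hsq : s ^ 5 ≤ q := by
    by_contra hcon
    have h1 : q + 1 ≤ s ^ 5 := by omega
    have h2 : (q + 1) ^ 4 ≤ (s ^ 5) ^ 4 := Nat.pow_le_pow_left h1 4
    have h3 : (s ^ 5) ^ 4 = s ^ 20 := by ring
    omega
  have hsq' : 2 ^ 20 * s ^ 4 ≤ q := by
    calc 2 ^ 20 * s ^ 4 ≤ s * s ^ 4 := Nat.mul_le_mul_right _ hs
      _ = s ^ 5 := by ring
      _ ≤ q := hsq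
  have hq0 : 1 ≤ q := le_trans (Nat.one_le_pow _ _ hs1) hsq
  have hh1 : 12 * h * (1 + 2 * h * (200 * s * q) * (4 * q)) ≤ x := by
    have e1 : 12 * h * (1 + 2 * h * (200 * s * q) * (4 * q)) ≤
        12 * (2 * s) * (1 + 2 * (2 * s) * (200 * s * q) * (4 * q)) := by gcongr
    have e2 : (1 : ℕ) ≤ s ^ 2 * q ^ 2 := Nat.one_le_iff_ne_zero.2 (by positivity)
    have e3 : 12 * (2 * s) * (1 + 2 * (2 * s) * (200 * s * q) * (4 * q)) ≤
        76824 * s ^ 3 * q ^ 2 := by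
      have : 12 * (2 * s) * (1 + 2 * (2 * s) * (200 * s * q) * (4 * q)) =
        24 * s * (1 + 3200 * (s ^ 2 * q ^ 2)) := by ring
      rw [this]
      calc 24 * s * (1 + 3200 * (s ^ 2 * q ^ 2)) ≤
            24 * s * (s ^ 2 * q ^ 2 + 3200 * (s ^ 2 * q ^ 2)) := by gcongr
        _ = 76824 * s ^ 3 * q ^ 2 := by ring
    have e4 : 76824 * s ^ 3 ≤ q := by
      calc 76824 * s ^ 3 ≤ 2 ^ 20 * s ^ 4 := by
            have : s ^ 3 ≤ s ^ 4 := Nat.pow_le_pow_right hs1 (by norm_num)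
            calc 76824 * s ^ 3 ≤ 2 ^ 20 * s ^ 3 := Nat.mul_le_mul_right _ (by norm_num)
              _ ≤ 2 ^ 20 * s ^ 4 := Nat.mul_le_mul_left _ this
        _ ≤ q := hsq'
    calc 12 * h * (1 + 2 * h * (200 * s * q) * (4 * q)) ≤ 76824 * s ^ 3 * q ^ 2 :=
          le_trans e1 e3
      _ ≤ q * q ^ 2 := Nat.mul_le_mul_right _ e4
      _ ≤ q ^ 4 := by
          calc q * q ^ 2 = q ^ 3 := by ring
            _ ≤ q ^ 4 := Nat.pow_le_pow_right hq0 (by norm_num)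
      _ ≤ x := hq1
  refine ⟨200 * s * q, 4 * q, ?_, ?_, hh1, ?_⟩
  · exact Nat.one_le_iff_ne_zero.2 (by positivity)
  · calc x < (q + 1) ^ 4 := hq2
      _ ≤ (2 ^ q) ^ 4 := Nat.pow_le_pow_left Nat.lt_two_pow_self 4
      _ = 2 ^ (4 * q) := by rw [← pow_mul, mul_comm]
  · obtain ⟨y, hy0, hy4, hy3⟩ := n2_root x
    rw [← hy3]
    have hqr : (1 : ℝ) ≤ q := by exact_mod_cast hq0
    have hsr : (1 : ℝ) ≤ s := by exact_mod_cast hs1
    have hqy : (q : ℝ) ≤ y := by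
      refine le_of_pow_le_pow_left₀ (n := 4) (by norm_num) hy0 ?_
      rw [hy4]
      exact_mod_cast hq1
    have hyq : y ≤ 2 * q := by
      refine le_of_pow_le_pow_left₀ (n := 4) (by norm_num) (by positivity) ?_
      rw [hy4]
      have : (x : ℝ) ≤ (q + 1 : ℝ) ^ 4 := by exact_mod_cast hq2.le
      exact le_trans this (pow_le_pow_left₀ (by positivity) (by linarith) 4)
    have hhr : (h : ℝ) ≤ 2 * s := by exact_mod_cast hh
    have hh0 : (0 : ℝ) ≤ h := by positivity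
    have hbig : (2 : ℝ) ^ 20 * s ^ 4 ≤ q := by exact_mod_cast hsq'
    have hy3q : (q : ℝ) ^ 3 ≤ y ^ 3 := pow_le_pow_left₀ (by positivity) hqy 3
    have hy3' : 0 ≤ y ^ 3 := by positivity
    -- the first part
    have k1 : 50 * s * (x : ℝ) ≤ 100 * s * q * y ^ 3 := by
      rw [← hy4]
      have : y ^ 4 = y * y ^ 3 := by ring
      rw [this]
      have : y * y ^ 3 ≤ 2 * q * y ^ 3 := mul_le_mul_of_nonneg_right hyq hy3'
      calc 50 * s * (y * y ^ 3) ≤ 50 * s * (2 * q * y ^ 3) := by gcongr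
        _ = 100 * s * q * y ^ 3 := by ring
    -- the second part
    have k2 : 100 * s * (h : ℝ) * (1 + 2 * h * (200 * s * q) * (4 * q)) ≤ y ^ 3 := by
      have e1 : 100 * s * (h : ℝ) * (1 + 2 * h * (200 * s * q) * (4 * q)) ≤
          100 * s * (2 * s) * (1 + 2 * (2 * s) * (200 * s * q) * (4 * q)) := by gcongr
      have e2 : (1 : ℝ) ≤ s ^ 2 * q ^ 2 :=
        one_le_mul_of_one_le_of_one_le (one_le_pow₀ hsr) (one_le_pow₀ hqr)
      have e3 : 100 * s * (2 * s) * (1 + 2 * (2 * s) * (200 * s * q) * (4 * q)) ≤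
          640200 * (s : ℝ) ^ 4 * q ^ 2 := by
        have : 100 * s * (2 * s) * (1 + 2 * (2 * s) * (200 * s * q) * (4 * q)) =
          200 * (s : ℝ) ^ 2 * (1 + 3200 * (s ^ 2 * q ^ 2)) := by ring
        rw [this]
        calc 200 * (s : ℝ) ^ 2 * (1 + 3200 * (s ^ 2 * q ^ 2)) ≤
              200 * (s : ℝ) ^ 2 * (s ^ 2 * q ^ 2 + 3200 * (s ^ 2 * q ^ 2)) := by gcongr
          _ = 640200 * (s : ℝ) ^ 4 * q ^ 2 := by ring
      have e4 : 640200 * (s : ℝ) ^ 4 ≤ q := by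
        have : 0 ≤ (s : ℝ) ^ 4 := by positivity
        linarith
      calc 100 * s * (h : ℝ) * (1 + 2 * h * (200 * s * q) * (4 * q)) ≤
            640200 * (s : ℝ) ^ 4 * q ^ 2 := le_trans e1 e3
        _ ≤ q * q ^ 2 := by gcongr
        _ = (q : ℝ) ^ 3 := by ring
        _ ≤ y ^ 3 := hy3q
    have k3 : 50 * s * ((200 * s * q) * h * (1 + 2 * h * (200 * s * q) * (4 * q)) : ℝ) ≤
        100 * s * q * y ^ 3 := by
      calc 50 * s * ((200 * s * q) * h * (1 + 2 * h * (200 * s * q) * (4 * q)) : ℝ) =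
            (100 * s * q) * (100 * s * (h : ℝ) * (1 + 2 * h * (200 * s * q) * (4 * q))) := by
              ring
        _ ≤ (100 * s * q) * y ^ 3 := by gcongr
    push_cast
    nlinarith [k1, k3]

end Pool.Agent.Work.MP_768e99_pocket
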