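import Pool.Agent.Work.MP_768e99_pocket.P1Ball

/-!
# Block P1: the separator theorem of Plotkin, Rao and Smith
-/

set_option autoImplicit false

namespace Pool.Agent.Work.MP_768e99_pocket

open Pool.Agent.Work.MP_768e99_co

namespace P1

universe u

variable {V : Type u} [Fintype V]

open Classical in
/-- A state: pairwise disjoint, pairwise adjacent connected sets of at most `Q` vertices and a
set `A` disjoint from them with few outer neighbours elsewhere. -/
structure St (G : SimpleGraph V) (Q l : ℕ) (F : Finset (Finset V)) (A : Finset V) : Prop where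
  conn : ∀ c ∈ F, Conn G (c : Set V)
  size : ∀ c ∈ F, c.card ≤ Q
  disj : ∀ c ∈ F, ∀ c' ∈ F, c ≠ c' → Disjoint c c'
  adj : ∀ c ∈ F, ∀ c' ∈ F, c ≠ c' → ∃ x ∈ c, ∃ y ∈ c', G.Adj x y
  dA : ∀ c ∈ F, Disjoint c A
  bd : l * (nb G A \ F.biUnion id).card ≤ A.card

open Classical in
lemma St.card_lt {G : SimpleGraph V} {Q l h : ℕ} {F : Finset (Finset V)} {A : Finset V}
    (hs : St G Q l F A) (hG : ¬ IsMinor (⊤ : SimpleGraph (Fin h)) G) : F.card < h := by
  by_contra hc
  push Not at hc
  apply hG
  have hcard : Fintype.card (Fin h) ≤ Fintype.card {c // c ∈ F} := by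
    rw [Fintype.card_fin, Fintype.card_coe]; exact hc
  obtain ⟨f⟩ := Function.Embedding.nonempty_of_card_le hcard
  refine ⟨fun w => ((f w).1 : Set V), fun w => (hs.conn _ (f w).2).connected, ?_, ?_⟩
  · intro w w' hw
    have hne : (f w).1 ≠ (f w').1 := fun e => hw (f.injective (Subtype.ext e))
    exact Finset.disjoint_coe.2 (hs.disj _ (f w).2 _ (f w').2 hne)
  · intro w w' hw
    have hne : (f w).1 ≠ (f w').1 := fun e => hw.ne (f.injective (Subtype.ext e))
    obtain ⟨x, hx, y, hy, hxy⟩ := hs.adj _ (f w).2 _ (f w').2 hne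
    exact ⟨x, hx, y, hy, hxy⟩

open Classical in
lemma St.card_M {G : SimpleGraph V} {Q l k : ℕ} {F : Finset (Finset V)} {A : Finset V}
    (hs : St G Q l F A) (hk : F.card ≤ k) : (F.biUnion id).card ≤ k * Q :=
  (Finset.card_biUnion_le_card_mul F id Q (fun c hc => hs.size c hc)).trans
    (Nat.mul_le_mul_right _ hk)

open Classical in
lemma St.disjM {G : SimpleGraph V} {Q l : ℕ} {F : Finset (Finset V)} {A : Finset V}
    (hs : St G Q l F A) : Disjoint (F.biUnion id) A := by
  rw [Finset.disjoint_biUnion_left]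
  exact fun c hc => hs.dA c hc

open Classical in
lemma St.concl {G : SimpleGraph V} {Q l h : ℕ} {F : Finset (Finset V)} {A : Finset V}
    (hs : St G Q l F A) (hk : F.card < h) :
    l * (nb G A).card ≤ l * h * Q + Fintype.card V := by
  have h1 : (nb G A).card ≤ (F.biUnion id).card + (nb G A \ F.biUnion id).card := by
    have := Finset.card_le_card (s := nb G A) (t := F.biUnion id ∪ (nb G A \ F.biUnion id)) (by
      intro x hx
      by_cases hxM : x ∈ F.biUnion id
      · exact Finset.mem_union_left _ hxM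
      · exact Finset.mem_union_right _ (Finset.mem_sdiff.2 ⟨hx, hxM⟩))
    exact this.trans (Finset.card_union_le _ _)
  have h2 := hs.card_M hk.le
  have h3 := hs.bd
  have h4 : A.card ≤ Fintype.card V := Finset.card_le_univ _
  calc l * (nb G A).card ≤ l * (h * Q + (nb G A \ F.biUnion id).card) :=
        Nat.mul_le_mul_left _ (by omega)
    _ = l * h * Q + l * (nb G A \ F.biUnion id).card := by ring
    _ ≤ l * h * Q + Fintype.card V := by omega

open Classical in
/-- The measure. -/
noncomputable def mu (F : Finset (Finset V)) (A : Finset V) : ℕ :=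
  ((F.biUnion id).card + A.card) * (Fintype.card V + 1) + A.card

open Classical in
lemma St.mu_le {G : SimpleGraph V} {Q l : ℕ} {F : Finset (Finset V)} {A : Finset V}
    (hs : St G Q l F A) : mu F A ≤ Fintype.card V * (Fintype.card V + 1) + Fintype.card V := by
  have h1 : (F.biUnion id).card + A.card ≤ Fintype.card V := by
    rw [← Finset.card_union_of_disjoint hs.disjM]; exact Finset.card_le_univ _
  have h2 : A.card ≤ Fintype.card V := Finset.card_le_univ _
  have := Nat.mul_le_mul_right (Fintype.card V + 1) h1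
  unfold mu
  omega

open Classical in
lemma mu_lt {F F' : Finset (Finset V)} {A A' : Finset V}
    (h : (F.biUnion id).card + A.card < (F'.biUnion id).card + A'.card) : mu F A < mu F' A' := by
  have h2 : A.card ≤ Fintype.card V := Finset.card_le_univ _
  have h1 := Nat.mul_le_mul_right (Fintype.card V + 1) (Nat.succ_le_of_lt h)
  rw [Nat.succ_mul] at h1
  unfold mu
  omega

open Classical in
lemma mu_lt' {F F' : Finset (Finset V)} {A A' : Finset V}
    (h : (F.biUnion id).card + A.card = (F'.biUnion id).card + A'.card) (h' : A.card < A'.card) :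
    mu F A < mu F' A' := by
  unfold mu
  rw [h]
  omega

open Classical in
/-- Move (a): a member without neighbours in the rest goes to `A`. -/
lemma St.moveA {G : SimpleGraph V} {Q l : ℕ} {F : Finset (Finset V)} {A : Finset V}
    (hs : St G Q l F A) {c : Finset V} (hc : c ∈ F)
    (hno : ∀ x ∈ c, ∀ y, G.Adj x y → y ∈ F.biUnion id ∨ y ∈ A) :
    St G Q l (F.erase c) (A ∪ c) ∧ (F.biUnion id).card = ((F.erase c).biUnion id).card + c.card ∧
      (A ∪ c).card = A.card + c.card := by
  have hcA : Disjoint A c := (hs.dA c hc).symm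
  have hcard : (A ∪ c).card = A.card + c.card := Finset.card_union_of_disjoint hcA
  have hM : F.biUnion id = (F.erase c).biUnion id ∪ c := by
    ext x
    simp only [Finset.mem_biUnion, id, Finset.mem_union, Finset.mem_erase]
    constructor
    · rintro ⟨d, hd, hx⟩
      by_cases hdc : d = c
      · exact Or.inr (hdc ▸ hx)
      · exact Or.inl ⟨d, ⟨hdc, hd⟩, hx⟩
    · rintro (⟨d, ⟨_, hd⟩, hx⟩ | hx)
      · exact ⟨d, hd, hx⟩
      · exact ⟨c, hc, hx⟩
  have hdis : Disjoint ((F.erase c).biUnion id) c := by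
    rw [Finset.disjoint_biUnion_left]
    intro d hd
    rw [Finset.mem_erase] at hd
    exact hs.disj d hd.2 c hc hd.1
  refine ⟨⟨fun d hd => hs.conn d (Finset.mem_of_mem_erase hd),
    fun d hd => hs.size d (Finset.mem_of_mem_erase hd),
    fun d hd d' hd' => hs.disj d (Finset.mem_of_mem_erase hd) d' (Finset.mem_of_mem_erase hd'),
    fun d hd d' hd' => hs.adj d (Finset.mem_of_mem_erase hd) d' (Finset.mem_of_mem_erase hd'),
    ?_, ?_⟩, ?_, hcard⟩
  · intro d hd
    rw [Finset.mem_erase] at hd
    rw [Finset.disjoint_union_right]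
    exact ⟨hs.dA d hd.2, hs.disj d hd.2 c hc hd.1⟩
  · have hsub : nb G (A ∪ c) \ (F.erase c).biUnion id ⊆ nb G A \ F.biUnion id := by
      intro x hx
      rw [Finset.mem_sdiff, mem_nb] at hx
      obtain ⟨⟨hxA, a, ha, hax⟩, hxM⟩ := hx
      rw [Finset.mem_union, not_or] at hxA
      have hxM' : x ∉ F.biUnion id := by
        rw [hM, Finset.mem_union, not_or]
        exact ⟨hxM, hxA.2⟩
      rw [Finset.mem_sdiff, mem_nb]
      refine ⟨⟨hxA.1, ?_⟩, hxM'⟩
      rcases Finset.mem_union.1 ha with ha | ha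
      · exact ⟨a, ha, hax⟩
      · rcases hno a ha x hax with h | h
        · exact absurd h hxM'
        · exact absurd h hxA.1
    have := Nat.mul_le_mul_left l (Finset.card_le_card hsub)
    have := hs.bd
    omega
  · rw [hM, Finset.card_union_of_disjoint hdis]

open Classical in
/-- Move (b): a set with few outer neighbours in the rest goes to `A`. -/
lemma St.moveB {G : SimpleGraph V} {Q l : ℕ} {F : Finset (Finset V)} {A X : Finset V}
    (hs : St G Q l F A) (hXM : Disjoint (F.biUnion id) X) (hXA : Disjoint A X)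
    (hX : l * (nb G X \ (F.biUnion id ∪ A)).card ≤ X.card) :
    St G Q l F (A ∪ X) ∧ (A ∪ X).card = A.card + X.card := by
  have hcard : (A ∪ X).card = A.card + X.card := Finset.card_union_of_disjoint hXA
  refine ⟨⟨hs.conn, hs.size, hs.disj, hs.adj, ?_, ?_⟩, hcard⟩
  · intro c hc
    rw [Finset.disjoint_union_right]
    refine ⟨hs.dA c hc, ?_⟩
    rw [Finset.disjoint_biUnion_left] at hXM
    exact hXM c hc
  · have hsub : nb G (A ∪ X) \ F.biUnion id ⊆
        (nb G A \ F.biUnion id) ∪ (nb G X \ (F.biUnion id ∪ A)) := by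
      intro x hx
      rw [Finset.mem_sdiff, mem_nb] at hx
      obtain ⟨⟨hxA, a, ha, hax⟩, hxM⟩ := hx
      rw [Finset.mem_union, not_or] at hxA
      rcases Finset.mem_union.1 ha with ha | ha
      · apply Finset.mem_union_left
        rw [Finset.mem_sdiff, mem_nb]
        exact ⟨⟨hxA.1, a, ha, hax⟩, hxM⟩
      · apply Finset.mem_union_right
        rw [Finset.mem_sdiff, mem_nb, Finset.mem_union, not_or]
        exact ⟨⟨hxA.2, a, ha, hax⟩, hxM, hxA.1⟩
    have h1 := (Finset.card_le_card hsub).trans (Finset.card_union_le _ _)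
    have h2 := Nat.mul_le_mul_left l h1
    rw [Nat.mul_add] at h2
    have := hs.bd
    omega

open Classical in
/-- Move (c): a new member. -/
lemma St.moveC {G : SimpleGraph V} {Q l : ℕ} {F : Finset (Finset V)} {A P : Finset V}
    (hs : St G Q l F A) (hP : Conn G (P : Set V)) (hPQ : P.card ≤ Q)
    (hPM : Disjoint (F.biUnion id) P) (hPA : Disjoint A P)
    (hadj : ∀ c ∈ F, ∃ x ∈ c, ∃ y ∈ P, G.Adj x y) :
    St G Q l (insert P F) A ∧ ((insert P F).biUnion id).card = (F.biUnion id).card + P.card := by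
  have hM : (insert P F).biUnion id = F.biUnion id ∪ P := by
    rw [Finset.biUnion_insert, id, Finset.union_comm]
  have hdis : ∀ c ∈ F, Disjoint c P := by
    rw [Finset.disjoint_biUnion_left] at hPM
    exact hPM
  refine ⟨⟨?_, ?_, ?_, ?_, ?_, ?_⟩, ?_⟩
  · intro c hc
    rcases Finset.mem_insert.1 hc with rfl | hc
    · exact hP
    · exact hs.conn c hc
  · intro c hc
    rcases Finset.mem_insert.1 hc with rfl | hc
    · exact hPQ
    · exact hs.size c hc
  · intro c hc c' hc' hne
    rcases Finset.mem_insert.1 hc with h1 | h1 <;> rcases Finset.mem_insert.1 hc' with h2 | h2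
    · exact absurd (h1.trans h2.symm) hne
    · rw [h1]; exact (hdis c' h2).symm
    · rw [h2]; exact hdis c h1
    · exact hs.disj c h1 c' h2 hne
  · intro c hc c' hc' hne
    rcases Finset.mem_insert.1 hc with h1 | h1 <;> rcases Finset.mem_insert.1 hc' with h2 | h2
    · exact absurd (h1.trans h2.symm) hne
    · obtain ⟨x, hx, y, hy, hxy⟩ := hadj c' h2
      rw [h1]
      exact ⟨y, hy, x, hx, hxy.symm⟩
    · rw [h2]; exact hadj c h1
    · exact hs.adj c h1 c' h2 hne
  · intro c hc
    rcases Finset.mem_insert.1 hc with rfl | hc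
    · exact hPA.symm
    · exact hs.dA c hc
  · refine le_trans (Nat.mul_le_mul_left l (Finset.card_le_card ?_)) hs.bd
    rw [hM]
    exact Finset.sdiff_subset_sdiff (Finset.Subset.refl _) Finset.subset_union_left
  · rw [hM, Finset.card_union_of_disjoint hPM]

open Classical in
/-- One step. -/
lemma step {G : SimpleGraph V} {h l lam : ℕ} (hl : 1 ≤ l) (hn : Fintype.card V < 2 ^ lam)
    (hbig : 12 * h * (1 + 2 * h * l * lam) ≤ Fintype.card V)
    (hG : ¬ IsMinor (⊤ : SimpleGraph (Fin h)) G) {F : Finset (Finset V)} {A : Finset V}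
    (hs : St G (1 + 2 * h * l * lam) l F A) (hA : 3 * A.card < Fintype.card V) :
    (∃ A' : Finset V, Fintype.card V ≤ 3 * A'.card ∧ 3 * A'.card ≤ 2 * Fintype.card V ∧
      l * (nb G A').card ≤ l * h * (1 + 2 * h * l * lam) + Fintype.card V) ∨
    ∃ F' : Finset (Finset V), ∃ A' : Finset V, St G (1 + 2 * h * l * lam) l F' A' ∧
      3 * A'.card < Fintype.card V ∧ mu F A < mu F' A' := by
  set Q := 1 + 2 * h * l * lam with hQ
  set n := Fintype.card V with hnn
  have hFh := hs.card_lt hG
  have hM := hs.card_M hFh.le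
  set M := F.biUnion id with hMdef
  set U : Finset V := Finset.univ \ (M ∪ A) with hU
  have hUmem : ∀ x, x ∈ U ↔ x ∉ M ∧ x ∉ A := by
    intro x
    rw [hU, Finset.mem_sdiff, Finset.mem_union, not_or]
    simp
  have hUcard : U.card + (M.card + A.card) = n := by
    have := Finset.card_sdiff_add_card_eq_card (Finset.subset_univ (M ∪ A))
    rw [Finset.card_union_of_disjoint hs.disjM, Finset.card_univ] at this
    exact this
  have hn0 : 0 < n := by omega
  have hhQ : 12 * (h * Q) ≤ n := by rw [← mul_assoc]; exact hbig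
  by_cases ha : ∃ c ∈ F, ∀ x ∈ c, ∀ y, G.Adj x y → y ∈ M ∨ y ∈ A
  · -- move (a)
    obtain ⟨c, hc, hno⟩ := ha
    obtain ⟨h1, h2, h3⟩ := hs.moveA hc hno
    rw [← hMdef] at h2
    have hcpos : 0 < c.card := by
      obtain ⟨x, hx⟩ := (hs.conn c hc).1
      exact Finset.card_pos.2 ⟨x, hx⟩
    have hcQ : c.card ≤ Q := hs.size c hc
    have hh1 : 1 ≤ h := by omega
    have hQn : 12 * Q ≤ n := by nlinarith
    rcases lt_or_ge (3 * (A ∪ c).card) n with hlt | hge
    · exact Or.inr ⟨F.erase c, A ∪ c, h1, hlt, mu_lt' (by rw [← hMdef]; omega) (by omega)⟩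
    · left
      refine ⟨A ∪ c, hge, by omega, ?_⟩
      exact h1.concl (by rw [Finset.card_erase_of_mem hc]; omega)
  push Not at ha
  by_cases hb : ∃ X : Finset V, X ⊆ U ∧ X.Nonempty ∧ 2 * X.card ≤ U.card ∧
      l * (nb G X \ (M ∪ A)).card ≤ X.card
  · -- move (b)
    obtain ⟨X, hXU, hXne, hX2, hXl⟩ := hb
    have hXM : Disjoint M X := by
      rw [Finset.disjoint_left]
      intro x hx hx'
      exact ((hUmem x).1 (hXU hx')).1 hx
    have hXA : Disjoint A X := by
      rw [Finset.disjoint_left]
      intro x hx hx'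
      exact ((hUmem x).1 (hXU hx')).2 hx
    obtain ⟨h1, h2⟩ := hs.moveB hXM hXA hXl
    have hXpos : 0 < X.card := hXne.card_pos
    rcases lt_or_ge (3 * (A ∪ X).card) n with hlt | hge
    · exact Or.inr ⟨F, A ∪ X, h1, hlt, mu_lt (by omega)⟩
    · left
      exact ⟨A ∪ X, hge, by omega, h1.concl hFh⟩
  push Not at hb
  -- move (c)
  right
  have hexp : ∀ X : Finset V, X ⊆ U → X.Nonempty → 2 * X.card ≤ U.card →
      X.card ≤ l * (nb G X ∩ U).card := by
    intro X h1 h2 h3
    have h4 := hb X h1 h2 h3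
    have h5 : nb G X \ (M ∪ A) = nb G X ∩ U := by
      ext x
      rw [Finset.mem_sdiff, Finset.mem_inter, hUmem, Finset.mem_union, not_or]
    rw [h5] at h4
    exact h4.le
  have hUpos : 0 < U.card := by omega
  obtain ⟨a, haU⟩ := Finset.card_pos.1 hUpos
  have hsel : ∀ c : Finset V, ∃ P : Finset V, c ∈ F → (a ∈ P ∧ P ⊆ U ∧ Conn G (P : Set V) ∧
      P.card ≤ 2 * l * lam + 1 ∧ ∃ x ∈ c, ∃ y ∈ P, G.Adj x y) := by
    intro c
    by_cases hc : c ∈ F
    · obtain ⟨x, hx, y, hxy, hyM, hyA⟩ := ha c hc
      obtain ⟨P, p1, p2, p3, p4, p5⟩ := join_two G U l lam hl hn hexp a y haU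
        ((hUmem y).2 ⟨hyM, hyA⟩)
      exact ⟨P, fun _ => ⟨p1, p3, p4, p5, x, hx, y, p2, hxy⟩⟩
    · exact ⟨∅, fun h => absurd h hc⟩
  choose P hP using hsel
  have hstar := conn_star F P a (fun c hc => (hP c hc).2.2.1) (fun c hc => (hP c hc).1)
  set T : Finset V := insert a (F.biUnion P) with hT
  have hTU : T ⊆ U := by
    intro x hx
    rw [hT, Finset.mem_insert, Finset.mem_biUnion] at hx
    rcases hx with rfl | ⟨c, hc, hx⟩
    · exact haU
    · exact (hP c hc).2.1 hx
  have hTcard : T.card ≤ Q := by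
    have h1 : T ⊆ insert a (F.biUnion (fun c => (P c).erase a)) := by
      intro x hx
      rw [hT, Finset.mem_insert, Finset.mem_biUnion] at hx
      rw [Finset.mem_insert, Finset.mem_biUnion]
      rcases hx with rfl | ⟨c, hc, hx⟩
      · exact Or.inl rfl
      · by_cases hxa : x = a
        · exact Or.inl hxa
        · exact Or.inr ⟨c, hc, Finset.mem_erase.2 ⟨hxa, hx⟩⟩
    have h2 : (F.biUnion (fun c => (P c).erase a)).card ≤ F.card * (2 * l * lam) := by
      apply Finset.card_biUnion_le_card_mul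
      intro c hc
      rw [Finset.card_erase_of_mem (hP c hc).1]
      have := (hP c hc).2.2.2.1
      omega
    have h3 := (Finset.card_le_card h1).trans (Finset.card_insert_le _ _)
    have h4 : F.card * (2 * l * lam) ≤ h * (2 * l * lam) := Nat.mul_le_mul_right _ hFh.le
    have h5 : h * (2 * l * lam) = 2 * h * l * lam := by ring
    omega
  have hTM : Disjoint M T := by
    rw [Finset.disjoint_left]
    intro x hx hx'
    exact ((hUmem x).1 (hTU hx')).1 hx
  have hTA : Disjoint A T := by
    rw [Finset.disjoint_left]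
    intro x hx hx'
    exact ((hUmem x).1 (hTU hx')).2 hx
  obtain ⟨h1, h2⟩ := hs.moveC hstar hTcard hTM hTA (by
    intro c hc
    obtain ⟨x, hx, y, hy, hxy⟩ := (hP c hc).2.2.2.2
    refine ⟨x, hx, y, ?_, hxy⟩
    rw [hT, Finset.mem_insert, Finset.mem_biUnion]
    exact Or.inr ⟨c, hc, hy⟩)
  have hTpos : 0 < T.card := Finset.card_pos.2 ⟨a, by rw [hT]; exact Finset.mem_insert_self _ _⟩
  exact ⟨insert T F, A, h1, hA, mu_lt (by omega)⟩

end P1

open P1 in
theorem P1 : B_P1 := by
  classical
  intro V _ G h l lam hl hn hbig hG hpos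
  have key : ∀ (k : ℕ) (F : Finset (Finset V)) (A : Finset V),
      St G (1 + 2 * h * l * lam) l F A → 3 * A.card < Fintype.card V →
      Fintype.card V * (Fintype.card V + 1) + Fintype.card V + 1 ≤ mu F A + k →
      ∃ A' : Finset V, Fintype.card V ≤ 3 * A'.card ∧ 3 * A'.card ≤ 2 * Fintype.card V ∧
        l * (nb G A').card ≤ l * h * (1 + 2 * h * l * lam) + Fintype.card V := by
    intro k
    induction k with
    | zero =>
      intro F A hs _ hk
      have := hs.mu_le
      omega
    | succ k ih =>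
      intro F A hs hA hk
      rcases step hl hn hbig hG hs hA with h1 | ⟨F', A', h1, h2, h3⟩
      · exact h1
      · exact ih F' A' h1 h2 (by omega)
  refine key _ ∅ ∅ ⟨by simp, by simp, by simp, by simp, by simp, ?_⟩ (by simpa using hpos)
    (Nat.le_add_left _ _)
  have : nb G (∅ : Finset V) = ∅ := by
    ext x; simp
  rw [this]
  simp

end Pool.Agent.Work.MP_768e99_pocket
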