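import Pool.Agent.Work.MP_768e99_pocket.Interface

set_option autoImplicit false

namespace Pool.Agent.Work.MP_768e99_pocket

open Pool.Agent.Work.MP_768e99_co

theorem S1 : B_S1 := by
  classical
  intro V _ G S t hroot A A₂ hA₂
  set R := nb G S with hR
  set X := nb (cg G S R t) A with hX
  set e : {x // x ∈ S} ↪ V := Function.Embedding.subtype _ with he
  have heval : ∀ x : {x // x ∈ S}, e x = (x : V) := fun x => rfl
  set RA : Finset V := R.filter (fun w => t w ∈ A.map e) with hRA
  set RX : Finset V := R.filter (fun w => t w ∈ X.map e) with hRX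
  set RB : Finset V := R.filter (fun w => t w ∈ A₂.map e) with hRB
  have mm : ∀ (B : Finset {x // x ∈ S}) (v : V), v ∈ B.map e ↔ ∃ h : v ∈ S, (⟨v, h⟩ : {x // x ∈ S}) ∈ B := by
    intro B v
    rw [Finset.mem_map]
    constructor
    · rintro ⟨x, hx, rfl⟩
      exact ⟨x.2, hx⟩
    · rintro ⟨h, hv⟩
      exact ⟨_, hv, rfl⟩
  -- first inclusion
  have h1 : nb G (A.map e) ⊆ X.map e ∪ (RA ∪ RX) := by
    intro v hv
    rw [mem_nb] at hv
    obtain ⟨hv1, a, ha, hav⟩ := hv
    rw [mm] at ha
    obtain ⟨haS, haA⟩ := ha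
    by_cases hvS : v ∈ S
    · apply Finset.mem_union_left
      rw [mm]
      refine ⟨hvS, ?_⟩
      rw [hX, mem_nb]
      refine ⟨fun h => hv1 ((mm _ _).2 ⟨hvS, h⟩), ⟨a, haS⟩, haA, ?_, Or.inl hav⟩
      intro h
      exact G.ne_of_adj hav (congrArg Subtype.val h)
    · have hvR : v ∈ R := by
        rw [hR, mem_nb]; exact ⟨hvS, a, haS, hav⟩
      obtain ⟨htS, htadj⟩ := hroot.1 v hvR
      apply Finset.mem_union_right
      by_cases htA : (⟨t v, htS⟩ : {x // x ∈ S}) ∈ A
      · apply Finset.mem_union_left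
        rw [hRA, Finset.mem_filter]
        exact ⟨hvR, (mm _ _).2 ⟨htS, htA⟩⟩
      · apply Finset.mem_union_right
        rw [hRX, Finset.mem_filter]
        refine ⟨hvR, (mm _ _).2 ⟨htS, ?_⟩⟩
        rw [hX, mem_nb]
        refine ⟨htA, ⟨a, haS⟩, haA, ?_, Or.inr (Or.inr ⟨v, hvR, rfl, hav.symm⟩)⟩
        intro h
        exact htA (h ▸ haA)
  have h2 : nb G (A₂.map e) ⊆ X.map e ∪ (RB ∪ RX) := by
    intro v hv
    rw [mem_nb] at hv
    obtain ⟨hv1, a, ha, hav⟩ := hv
    rw [mm] at ha
    obtain ⟨haS, haA⟩ := ha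
    obtain ⟨haA', haX⟩ := (hA₂ _).1 haA
    by_cases hvS : v ∈ S
    · apply Finset.mem_union_left
      rw [mm]
      refine ⟨hvS, ?_⟩
      by_contra hvX
      by_cases hvA : (⟨v, hvS⟩ : {x // x ∈ S}) ∈ A
      · apply haX
        rw [hX, mem_nb]
        refine ⟨haA', ⟨v, hvS⟩, hvA, ?_, Or.inl hav.symm⟩
        intro h
        exact G.ne_of_adj hav (congrArg Subtype.val h).symm
      · exact hv1 ((mm _ _).2 ⟨hvS, (hA₂ _).2 ⟨hvA, hvX⟩⟩)
    · have hvR : v ∈ R := by
        rw [hR, mem_nb]; exact ⟨hvS, a, haS, hav⟩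
      obtain ⟨htS, htadj⟩ := hroot.1 v hvR
      apply Finset.mem_union_right
      by_cases htX : (⟨t v, htS⟩ : {x // x ∈ S}) ∈ X
      · apply Finset.mem_union_right
        rw [hRX, Finset.mem_filter]
        exact ⟨hvR, (mm _ _).2 ⟨htS, htX⟩⟩
      · apply Finset.mem_union_left
        rw [hRB, Finset.mem_filter]
        refine ⟨hvR, (mm _ _).2 ⟨htS, (hA₂ _).2 ⟨?_, htX⟩⟩⟩
        intro htA
        apply haX
        rw [hX, mem_nb]
        refine ⟨haA', ⟨t v, htS⟩, htA, ?_, Or.inr (Or.inl ⟨v, hvR, rfl, hav.symm⟩)⟩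
        intro h
        exact haA' (h ▸ htA)
  -- disjointness of the three fibres
  have hd1 : Disjoint RA RX := by
    rw [Finset.disjoint_left]
    intro w hw hw'
    rw [hRA, Finset.mem_filter, mm] at hw
    rw [hRX, Finset.mem_filter, mm] at hw'
    obtain ⟨_, h, hA⟩ := hw
    obtain ⟨_, h', hX'⟩ := hw'
    rw [hX, mem_nb] at hX'
    exact hX'.1 hA
  have hd2 : Disjoint (RA ∪ RX) RB := by
    rw [Finset.disjoint_left]
    intro w hw hw'
    rw [hRB, Finset.mem_filter, mm] at hw'
    obtain ⟨_, h', hB⟩ := hw'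
    obtain ⟨hB1, hB2⟩ := (hA₂ _).1 hB
    rcases Finset.mem_union.1 hw with hw | hw
    · rw [hRA, Finset.mem_filter, mm] at hw
      obtain ⟨_, h, hA⟩ := hw
      exact hB1 hA
    · rw [hRX, Finset.mem_filter, mm] at hw
      obtain ⟨_, h, hA⟩ := hw
      exact hB2 hA
  have hsum : RA.card + RX.card + RB.card ≤ R.card := by
    rw [← Finset.card_union_of_disjoint hd1, ← Finset.card_union_of_disjoint hd2]
    apply Finset.card_le_card
    intro w hw
    rcases Finset.mem_union.1 hw with hw | hw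
    · rcases Finset.mem_union.1 hw with hw | hw
      · exact (Finset.mem_filter.1 hw).1
      · exact (Finset.mem_filter.1 hw).1
    · exact (Finset.mem_filter.1 hw).1
  have hRX2 : RX.card ≤ 2 * X.card := by
    have hmap : (X.map e).card = X.card := Finset.card_map _
    rw [← hmap]
    refine Finset.card_le_mul_card_image_of_maps_to (f := t) (fun w hw => ?_) 2 (fun b hb => ?_)
    · exact (Finset.mem_filter.1 hw).2
    · have h2 := hroot.2 b
      have hsub : ((RX.filter (fun w => t w = b) : Finset V) : Set V) ⊆ {w | w ∈ R ∧ t w = b} := by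
        intro w hw
        simp only [Finset.coe_filter, Set.mem_setOf_eq] at hw
        exact ⟨(Finset.mem_filter.1 hw.1).1, hw.2⟩
      have := Set.ncard_le_ncard hsub (Set.toFinite _)
      rw [Set.ncard_coe_finset] at this
      exact this.trans h2
  have c1 : (nb G (A.map e)).card ≤ X.card + (RA.card + RX.card) := by
    refine (Finset.card_le_card h1).trans ((Finset.card_union_le _ _).trans ?_)
    rw [Finset.card_map]
    exact Nat.add_le_add_left (Finset.card_union_le _ _) _
  have c2 : (nb G (A₂.map e)).card ≤ X.card + (RB.card + RX.card) := by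
    refine (Finset.card_le_card h2).trans ((Finset.card_union_le _ _).trans ?_)
    rw [Finset.card_map]
    exact Nat.add_le_add_left (Finset.card_union_le _ _) _
  omega

end Pool.Agent.Work.MP_768e99_pocket
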