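import Pool.Agent.Work.MP_768e99_pocket.Interface

set_option autoImplicit false

namespace Pool.Agent.Work.MP_768e99_pocket

open Pool.Agent.Work.MP_768e99_co

/-- the preimage blob of a vertex of the contracted graph -/
def blob {V : Type} (S R : Finset V) (t : V → V) (u : {x // x ∈ S}) : Set V :=
  {v | v = u ∨ (v ∈ R ∧ t v = u)}

theorem T1 : B_T1 := by
  classical
  intro V W _ G H S R t hSR ht hmin
  obtain ⟨B, hB1, hB2, hB3⟩ := hmin
  -- lifted branch sets
  let B' : W → Set V := fun w => {v | ∃ u ∈ B w, v ∈ blob S R t u}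
  have hcore : ∀ w (u : {x // x ∈ S}), u ∈ B w → (u : V) ∈ B' w := fun w u hu =>
    ⟨u, hu, Or.inl rfl⟩
  refine ⟨B', ?_, ?_, ?_⟩
  · intro w
    have hpre := (hB1 w).preconnected
    obtain ⟨⟨u0, hu0⟩⟩ := (hB1 w).nonempty
    -- every point of a blob is reachable from its centre
    have hblob : ∀ (u : {x // x ∈ S}) (hu : u ∈ B w) (v : V) (hv : v ∈ blob S R t u),
        (G.induce (B' w)).Reachable ⟨(u : V), hcore w u hu⟩ ⟨v, ⟨u, hu, hv⟩⟩ := by
      intro u hu v hv
      rcases id hv with h | ⟨h1, h2⟩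
      · subst h; exact SimpleGraph.Reachable.refl _
      · apply SimpleGraph.Adj.reachable
        have := (ht.1 v h1).2
        rw [h2] at this
        exact this.symm
    have hstep : ∀ (u u' : {x // x ∈ S}) (hu : u ∈ B w) (hu' : u' ∈ B w),
        (cg G S R t).Adj u u' →
        (G.induce (B' w)).Reachable ⟨(u : V), hcore w u hu⟩ ⟨(u' : V), hcore w u' hu'⟩ := by
      intro u u' hu hu' hadj
      rcases hadj.2 with h | ⟨x, hx, h1, h2⟩ | ⟨x, hx, h1, h2⟩
      · exact SimpleGraph.Adj.reachable h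
      · have hxb : x ∈ blob S R t u := Or.inr ⟨hx, h1⟩
        refine (hblob u hu x hxb).trans (SimpleGraph.Adj.reachable ?_)
        exact h2
      · have hxb : x ∈ blob S R t u' := Or.inr ⟨hx, h1⟩
        refine SimpleGraph.Reachable.trans ?_ (hblob u' hu' x hxb).symm
        exact SimpleGraph.Adj.reachable h2.symm
    have hreach : ∀ (a b : {u // u ∈ B w}), ((cg G S R t).induce (B w)).Reachable a b →
        (G.induce (B' w)).Reachable ⟨((a : {x // x ∈ S}) : V), hcore w a a.2⟩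
          ⟨((b : {x // x ∈ S}) : V), hcore w b b.2⟩ := by
      rintro a b ⟨p⟩
      induction p with
      | nil => exact SimpleGraph.Reachable.refl _
      | @cons x y z h p ih => exact (hstep x y x.2 y.2 h).trans ih
    have : Nonempty (B' w) := ⟨⟨(u0 : V), hcore w u0 hu0⟩⟩
    refine ⟨?_⟩
    rintro ⟨a, ua, hua, ha⟩ ⟨b, ub, hub, hb⟩
    exact ((hblob ua hua a ha).symm.trans (hreach ⟨ua, hua⟩ ⟨ub, hub⟩ (hpre _ _))).trans
      (hblob ub hub b hb)
  · intro w w' hww
    rw [Set.disjoint_left]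
    rintro v ⟨u, hu, hv⟩ ⟨u', hu', hv'⟩
    have huu : u = u' := by
      rcases hv with h | ⟨h1, h2⟩ <;> rcases hv' with h' | ⟨h1', h2'⟩
      · exact Subtype.ext (h.symm.trans h')
      · exact absurd h1' (Finset.disjoint_left.1 hSR (h ▸ u.2))
      · exact absurd h1 (Finset.disjoint_left.1 hSR (h' ▸ u'.2))
      · exact Subtype.ext (h2.symm.trans h2')
    subst huu
    exact Set.disjoint_left.1 (hB2 w w' hww) hu hu'
  · intro w w' hww
    obtain ⟨u, hu, u', hu', hadj⟩ := hB3 w w' hww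
    rcases hadj.2 with h | ⟨x, hx, h1, h2⟩ | ⟨x, hx, h1, h2⟩
    · exact ⟨u, hcore w u hu, u', hcore w' u' hu', h⟩
    · exact ⟨x, ⟨u, hu, Or.inr ⟨hx, h1⟩⟩, u', hcore w' u' hu', h2⟩
    · exact ⟨u, hcore w u hu, x, ⟨u', hu', Or.inr ⟨hx, h1⟩⟩, h2.symm⟩

end Pool.Agent.Work.MP_768e99_pocket
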