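import Pool.Agent.Work.MP_768e99_pocket.Interface

set_option autoImplicit false

namespace Pool.Agent.Work.MP_768e99_pocket

open Pool.Agent.Work.MP_768e99_co

theorem T2 : B_T2 := by
  intro V G r s h
  obtain ⟨B, h1, h2, h3⟩ := h
  let e : Fin r ⊕ Fin s ≃ Fin (r + s) := finSumFinEquiv
  refine ⟨fun w => B (e w), fun w => h1 _, fun w w' hw => h2 _ _ (fun h => hw (e.injective h)),
    fun w w' hw => h3 _ _ ?_⟩
  rw [SimpleGraph.top_adj]
  intro h
  exact hw.ne (e.injective h)

end Pool.Agent.Work.MP_768e99_pocket
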