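import Pool.Agent.Work.MP_768e99_pocket.Interface

/-!
# Doubling of the sizes of closed sets
-/

set_option autoImplicit false

namespace Pool.Agent.Work.MP_768e99_pocket

open Pool.Agent.Work.MP_768e99_co

/-- A closed set contains a connected closed set. -/
lemma exists_conn_closed {V : Type} [Fintype V] (G : SimpleGraph V) (Z D : Set V)
    (hD : Closed G Z D) : ∃ C, C ⊆ D ∧ Closed G Z C ∧ Conn G C := by
  classical
  obtain ⟨C, ⟨hCD, hCne, hCcl⟩, hmin⟩ : ∃ C : Set V, (C ⊆ D ∧ C.Nonempty ∧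
      (∀ x ∈ C, ∀ y ∈ Z, G.Adj x y → y ∈ C)) ∧ ∀ C' : Set V, (C' ⊆ D ∧ C'.Nonempty ∧
      (∀ x ∈ C', ∀ y ∈ Z, G.Adj x y → y ∈ C')) → C.ncard ≤ C'.ncard := by
    have hfin : {C : Set V | C ⊆ D ∧ C.Nonempty ∧
      (∀ x ∈ C, ∀ y ∈ Z, G.Adj x y → y ∈ C)}.Finite := Set.toFinite _
    obtain ⟨C, hC, hmin⟩ := Set.exists_min_image _ Set.ncard hfin
      ⟨D, subset_rfl, hD.2.1, hD.2.2.2⟩
    exact ⟨C, hC, fun C' hC' => hmin C' hC'⟩
  refine ⟨C, hCD, ⟨hCD.trans hD.1, hCne, ?_, hCcl⟩, hCne, ?_⟩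
  · intro h
    exact hD.2.2.1 (Set.Subset.antisymm hD.1 (h ▸ hCD))
  · intro T hTC hTne hT
    have hTZ : ∀ x ∈ T, ∀ y ∈ Z, G.Adj x y → y ∈ T := by
      intro x hx y hy hxy
      exact hT x hx y (hCcl x (hTC hx) y hy hxy) hxy
    have h1 := hmin T ⟨hTC.trans hCD, hTne, hTZ⟩
    have h2 := Set.eq_of_subset_of_ncard_le hTC h1 (Set.toFinite _)
    rw [h2]

theorem Z1 : B_Z1 := by
  classical
  intro V _ G lam Z hcard hV hmono hDom hstep
  have hmono0 : ∀ j, Z 0 ⊆ Z j := by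
    intro j
    induction j with
    | zero => exact subset_rfl
    | succ j ih => exact ih.trans (hmono j)
  have key : ∀ j, j ≤ lam → ∀ D, Closed G (Z j) D → 2 ^ j ≤ D.ncard := by
    intro j
    induction j with
    | zero =>
      intro _ D hD
      rw [pow_zero]
      exact (Set.ncard_pos (Set.toFinite _)).2 hD.2.1
    | succ j ih =>
      intro hj D hD
      obtain ⟨hDZ, ⟨d0, hd0⟩, hne, hclos⟩ := hD
      -- every vertex of `D` has a neighbour in `D ∩ Z j`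
      have hnbr : ∀ E : Set V, (∀ x ∈ E, ∀ y ∈ Z (j + 1), G.Adj x y → y ∈ E) → ∀ x ∈ E,
          ∃ z ∈ Z j, z ∈ E := by
        intro E hE x hx
        obtain ⟨z, hz, hxz⟩ := hDom x
        exact ⟨z, hmono0 j hz, hE x hx z (hmono j (hmono0 j hz)) hxz⟩
      obtain ⟨z0, hz0, hz0D⟩ := hnbr D hclos d0 hd0
      obtain ⟨y0, hy0Z, hy0D⟩ : ∃ y ∈ Z (j + 1), y ∉ D := by
        by_contra hcon
        push Not at hcon
        exact hne (Set.Subset.antisymm hDZ hcon)
      obtain ⟨z1, hz1, hz1D⟩ : ∃ z ∈ Z j, z ∉ D := by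
        obtain ⟨z, hz, hyz⟩ := hDom y0
        refine ⟨z, hmono0 j hz, fun hzD => hy0D ?_⟩
        exact hclos z hzD y0 hy0Z hyz.symm
      have hcl1 : Closed G (Z j) (D ∩ Z j) := by
        refine ⟨Set.inter_subset_right, ⟨z0, hz0D, hz0⟩, ?_, ?_⟩
        · intro h
          have : z1 ∈ D ∩ Z j := by rw [h]; exact hz1
          exact hz1D this.1
        · rintro x ⟨hxD, hxZ⟩ y hy hxy
          exact ⟨hclos x hxD y (hmono j hy) hxy, hy⟩
      obtain ⟨C, hCD, hCcl, hCconn⟩ := exists_conn_closed G (Z j) (D ∩ Z j) hcl1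
      obtain ⟨c, hcZ, hc⟩ := hstep j (by omega) C hCcl hCconn
      obtain ⟨-, -, a, ha, b, hb, hab, ⟨x, hxC, hxa⟩, y, hyZ, hyC, hby⟩ := hc
      have haD : a ∈ D := hclos x (hCD hxC).1 a (hcZ ha) hxa
      have hbD : b ∈ D := by
        rcases hab with h | h
        · rw [← h]; exact haD
        · exact hclos a haD b (hcZ hb) h
      have hyD : y ∈ D := hclos b hbD y (hmono j hyZ) hby
      have hcl2 : Closed G (Z j) ((D ∩ Z j) \ C) := by
        refine ⟨Set.sdiff_subset.trans Set.inter_subset_right, ⟨y, ⟨hyD, hyZ⟩, hyC⟩, ?_, ?_⟩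
        · intro h
          have : z1 ∈ (D ∩ Z j) \ C := by rw [h]; exact hz1
          exact hz1D this.1.1
        · rintro u ⟨⟨huD, huZ⟩, huC⟩ w hw huw
          refine ⟨⟨hclos u huD w (hmono j hw) huw, hw⟩, fun hwC => huC ?_⟩
          exact hCcl.2.2.2 w hwC u huZ huw.symm
      have h1 := ih (by omega) C hCcl
      have h2 := ih (by omega) _ hcl2
      have h3 : ((D ∩ Z j) \ C).ncard + C.ncard = (D ∩ Z j).ncard :=
        Set.ncard_sdiff_add_ncard_of_subset hCD (Set.toFinite _)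
      have h4 : (D ∩ Z j).ncard ≤ D.ncard :=
        Set.ncard_le_ncard Set.inter_subset_left (Set.toFinite _)
      rw [pow_succ]
      omega
  obtain ⟨v0⟩ := hV
  obtain ⟨z, hz, -⟩ := hDom v0
  refine ⟨⟨z, hmono0 lam hz⟩, ?_⟩
  intro T hTZ hTne hT
  by_contra hcon
  have hcl : Closed G (Z lam) T := ⟨hTZ, hTne, fun h => hcon (by rw [h]), hT⟩
  have h1 := key lam le_rfl T hcl
  have h2 : T.ncard ≤ Fintype.card V := by
    have h3 := Set.ncard_le_ncard (Set.subset_univ T) (Set.toFinite _)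
    rwa [Set.ncard_univ, Nat.card_eq_fintype_card] at h3
  omega

end Pool.Agent.Work.MP_768e99_pocket
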