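import Pool.Agent.Work.MP_768e99_pocket.Interface

set_option autoImplicit false

namespace Pool.Agent.Work.MP_768e99_pocket

open Pool.Agent.Work.MP_768e99_co

universe u

/-- `K_{r,s} = K_{s,r}` -/
lemma biclique_symm {V : Type*} {G : SimpleGraph V} {r s : ℕ} (h : HasBicliqueMinor G r s) :
    HasBicliqueMinor G s r := by
  obtain ⟨B, h1, h2, h3⟩ := h
  refine ⟨fun w => B w.swap, fun w => h1 _, fun w w' hww => h2 _ _ ?_, ?_⟩
  · intro h
    apply hww
    rw [← Sum.swap_swap w, h, Sum.swap_swap]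
  · rintro (i | j) (i' | j') hadj
    · simp at hadj
    · exact h3 (Sum.inr i) (Sum.inl j') (by simp)
    · exact h3 (Sum.inl j) (Sum.inr i') (by simp)
    · simp at hadj

/-- the numerical bound for the pocket -/
lemma kap_le (e r L : ℕ) (he : 1 ≤ e) (hr : 1 ≤ r) (hL : 1 ≤ L) :
    5 * kap e r (20 * L) + 2 ≤ 4500000 * e ^ 2 * r ^ 2 * L ^ 3 := by
  have h1 : (20 * L + 1) ^ 3 ≤ (21 * L) ^ 3 := Nat.pow_le_pow_left (by omega) 3
  have h2 : 1 ≤ e ^ 2 := Nat.one_le_pow _ _ he
  have h3 : 1 ≤ r ^ 2 := Nat.one_le_pow _ _ hr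
  have h4 : 1 ≤ L ^ 3 := Nat.one_le_pow _ _ hL
  have h5 : 1 ≤ e ^ 2 * r ^ 2 * L ^ 3 := by
    calc 1 = 1 * 1 * 1 := by norm_num
      _ ≤ e ^ 2 * r ^ 2 * L ^ 3 := by gcongr
  have h6 : kap e r (20 * L) ≤ 96 * e ^ 2 * r ^ 2 * (21 * L) ^ 3 := by
    unfold kap; gcongr
  have h7 : 96 * e ^ 2 * r ^ 2 * (21 * L) ^ 3 = 889056 * (e ^ 2 * r ^ 2 * L ^ 3) := by ring
  have h8 : 4500000 * e ^ 2 * r ^ 2 * L ^ 3 = 4500000 * (e ^ 2 * r ^ 2 * L ^ 3) := by ring
  rw [h8]
  rw [h7] at h6
  omega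

/-- monotonicity in the number of colours -/
lemma DefColorable.mono' {V : Type*} {G : SimpleGraph V} {k k' d : ℕ} (h : DefColorable G k d)
    (hk : k ≤ k') : DefColorable G k' d := by
  obtain ⟨c, hc⟩ := h
  refine ⟨fun v => Fin.castLE hk (c v), fun v => ?_⟩
  have : {w | G.Adj v w ∧ Fin.castLE hk (c w) = Fin.castLE hk (c v)} =
      {w | G.Adj v w ∧ c w = c v} := by
    ext w
    simp only [Set.mem_ofPred_eq, Fin.ext_iff, Fin.val_castLE]
  rw [this]; exact hc v

/-- The two colouring results for graphs on a type in the lowest universe. -/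
theorem final_type0 (hC1 : B_C1) (hC2 : B_C2) (hP : B_POCKET) (V : Type) [Fintype V]
    (G : SimpleGraph V) (m M d : ℕ) (hm : 1 ≤ m) (hG : ¬ HasBicliqueMinor G m M) :
    (∀ e, 1 ≤ e → 4500000 * e ^ 2 * m ^ 2 * (Nat.log 2 M + 1) ^ 3 ≤ M →
      DefColorable G (((e + 1) * M / e + d) / (d + 1) +
        4500000 * e ^ 2 * m ^ 2 * (Nat.log 2 M + 1) ^ 3) d) ∧
    (1 ≤ d → d + 90000000 * m ^ 2 * (Nat.log 2 M + 1) ^ 3 ≤ M →
      DefColorable G (m + M - 1 - d) d) := by
  have hL1 : 1 ≤ Nat.log 2 M + 1 := by omega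
  constructor
  · intro e he hM
    have hk := kap_le e m (Nat.log 2 M + 1) he hm hL1
    have hpos : 1 ≤ M := by omega
    have ha : 1 ≤ (e + 1) * M / e := by
      rw [Nat.le_div_iff_mul_le (by omega)]
      nlinarith
    have hpk := hP e m M he hm (by omega)
    refine hC2 m M _ _ _ d hC1 hpk ?_ ?_ V G hG
    · have : 1 ≤ ((e + 1) * M / e + d) / (d + 1) := by
        rw [Nat.le_div_iff_mul_le (by omega)]; omega
      omega
    · set a := (e + 1) * M / e with hadef
      set b := 5 * kap e m (20 * (Nat.log 2 M + 1)) + 2 with hbdef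
      have h1 : a ≤ (d + 1) * ((a + d) / (d + 1)) := by
        have := Nat.div_add_mod (a + d) (d + 1)
        have h2 := Nat.mod_lt (a + d) (show 0 < d + 1 by omega)
        omega
      refine h1.trans (Nat.mul_le_mul_left _ ?_)
      omega
  · intro hd hM
    have hk := kap_le 2 m (Nat.log 2 M + 1) (by norm_num) hm hL1
    have hP' := hP 2 m M (by norm_num) hm
    set L := Nat.log 2 M + 1 with hLdef
    set b := 5 * kap 2 m (20 * L) + 2 with hbdef
    have h5b : 5 * b ≤ 90000000 * m ^ 2 * L ^ 3 := by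
      have : 4500000 * 2 ^ 2 * m ^ 2 * L ^ 3 = 18000000 * (m ^ 2 * L ^ 3) := by ring
      rw [this] at hk
      have : 90000000 * m ^ 2 * L ^ 3 = 90000000 * (m ^ 2 * L ^ 3) := by ring
      rw [this]
      omega
    have hb15 : 15 ≤ 5 * b := by
      have : 1 ≤ kap 2 m (20 * L) := by
        unfold kap
        exact Nat.one_le_iff_ne_zero.2 (by positivity)
      omega
    have hpk := hP' (by omega)
    refine hC2 m M _ _ _ d hC1 hpk ?_ ?_ V G hG
    · omega
    · obtain ⟨v, hv⟩ : ∃ v, M = d + 5 * b + v := ⟨M - (d + 5 * b), by omega⟩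
      have h1 : (2 + 1) * M / 2 ≤ (d + 1) * (4 * b + v) := by
        rw [Nat.div_le_iff_le_mul_add_pred (by norm_num)]
        rw [hv]
        obtain ⟨d', rfl⟩ : ∃ d', d = d' + 1 := ⟨d - 1, by omega⟩
        obtain ⟨b', hb'⟩ : ∃ b', b = b' + 3 := ⟨b - 3, by omega⟩
        rw [hb']
        nlinarith [Nat.zero_le (d' * b'), Nat.zero_le (d' * v)]
      refine h1.trans (Nat.mul_le_mul_left _ ?_)
      omega

/-- Transport to a small universe. -/
lemma transport {V : Type u} [Finite V] (G : SimpleGraph V) :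
    ∃ G' : SimpleGraph (Fin (Nat.card V)),
      (∀ r s, HasBicliqueMinor G' r s → HasBicliqueMinor G r s) ∧
      ∀ k d, DefColorable G' k d → DefColorable G k d := by
  let e : V ≃ Fin (Nat.card V) := Finite.equivFin V
  let G' : SimpleGraph (Fin (Nat.card V)) := G.comap e.symm
  refine ⟨G', ?_, ?_⟩
  · rintro r s ⟨B, h1, h2, h3⟩
    refine ⟨fun w => {v | e v ∈ B w}, ?_, ?_, ?_⟩
    · intro w
      let f : G'.induce (B w) →g G.induce {v | e v ∈ B w} :=
        { toFun := fun x => ⟨e.symm x, by simp⟩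
          map_rel' := fun {a b} h => h }
      refine (h1 w).map f ?_
      rintro ⟨v, hv⟩
      exact ⟨⟨e v, hv⟩, Subtype.ext (by simp [f])⟩
    · intro w w' hww
      have := h2 w w' hww
      rw [Set.disjoint_left] at this ⊢
      intro v hv hv'
      exact this hv hv'
    · intro w w' hadj
      obtain ⟨x, hx, y, hy, hxy⟩ := h3 w w' hadj
      exact ⟨e.symm x, by simpa using hx, e.symm y, by simpa using hy, hxy⟩
  · rintro k d ⟨c, hc⟩
    refine ⟨fun v => c (e v), fun v => ?_⟩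
    refine le_trans ?_ (hc (e v))
    refine (Set.ncard_le_ncard_of_injOn e ?_ e.injective.injOn (Set.toFinite _))
    rintro w ⟨hw1, hw2⟩
    refine ⟨?_, hw2⟩
    change G.Adj (e.symm (e v)) (e.symm (e w))
    simpa using hw1

/-- **Main theorem.** -/
theorem final_main (hC1 : B_C1) (hC2 : B_C2) (hP : B_POCKET) {V : Type u} [Finite V]
    (G : SimpleGraph V) (r s d : ℕ) (hr : 1 ≤ r) (hs : 1 ≤ s) (hG : ¬ HasBicliqueMinor G r s) :
    (∀ e, 1 ≤ e → 4500000 * e ^ 2 * (min r s) ^ 2 * (Nat.log 2 (max r s) + 1) ^ 3 ≤ max r s →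
      DefColorable G (((e + 1) * max r s / e + d) / (d + 1) +
        4500000 * e ^ 2 * (min r s) ^ 2 * (Nat.log 2 (max r s) + 1) ^ 3) d) ∧
    (1 ≤ d → d + 90000000 * (min r s) ^ 2 * (Nat.log 2 (max r s) + 1) ^ 3 ≤ max r s →
      DefColorable G (r + s - 1 - d) d) := by
  obtain ⟨G', hG1, hG2⟩ := transport G
  have hmin : ¬ HasBicliqueMinor G' (min r s) (max r s) := by
    intro h
    apply hG
    rcases le_total r s with hrs | hrs
    · rw [min_eq_left hrs, max_eq_right hrs] at h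
      exact hG1 _ _ h
    · rw [min_eq_right hrs, max_eq_left hrs] at h
      exact biclique_symm (hG1 _ _ h)
  have h := final_type0 hC1 hC2 hP (Fin (Nat.card V)) G' (min r s) (max r s) d
    (le_min hr hs) hmin
  have hrs : min r s + max r s = r + s := min_add_max r s
  rw [hrs] at h
  exact ⟨fun e he hM => hG2 _ _ (h.1 e he hM), fun hd hM => hG2 _ _ (h.2 hd hM)⟩

end Pool.Agent.Work.MP_768e99_pocket
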