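import Pool.Agent.Work.MP_768e99_pocket.Interface

set_option autoImplicit false

namespace Pool.Agent.Work.MP_768e99_pocket

open Pool.Agent.Work.MP_768e99_co

lemma card_sub {V : Type} [Fintype V] (S : Finset V) : Fintype.card {x // x ∈ S} = S.card :=
  Fintype.card_coe S

/-- all the parts give the pocket lemma -/
theorem POCKET_of (hH1 : B_H1) (hT1 : B_T1) (hT2 : B_T2) (hS1 : B_S1) (hN1 : B_N1) (hN2 : B_N2)
    (hN3 : B_N3) (hN5 : B_N5) (hM1 : B_M1) (hM2 : B_M2) (hM3 : B_M3) (hM4 : B_M4) (hP1 : B_P1)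
    (hK1 : B_K1) (hI1 : B_I1) (hZ1 : B_Z1) (hE1 : B_E1) (hE2 : B_E2) (hE3 : B_E3) (hE4 : B_E4)
    (hCDS : B_CDS) : B_POCKET := by
  classical
  intro e r s he hr hs V _ _ G hG
  set L := Nat.log 2 s + 1 with hL
  set lam := 20 * L with hlam
  have hL1 : 1 ≤ L := by omega
  -- sizes
  have hkap : 96 * r ^ 2 * 21 ^ 3 ≤ kap e r lam := by
    unfold kap
    have h1 : 21 ^ 3 ≤ (lam + 1) ^ 3 := Nat.pow_le_pow_left (by omega) 3
    have h2 : 1 ≤ e ^ 2 := Nat.one_le_pow _ _ he
    calc 96 * r ^ 2 * 21 ^ 3 = 96 * 1 * r ^ 2 * 21 ^ 3 := by ring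
      _ ≤ 96 * e ^ 2 * r ^ 2 * (lam + 1) ^ 3 := by gcongr
  have hr2 : r ≤ r ^ 2 := by nlinarith
  have hkap1 : 4000 * r ≤ kap e r lam := by
    refine le_trans ?_ hkap
    calc 4000 * r ≤ 4000 * r ^ 2 := by omega
      _ ≤ 96 * r ^ 2 * 21 ^ 3 := by omega
  have hkappos : 0 < kap e r lam := by omega
  have hs20 : 2 ^ 20 ≤ s := by
    refine le_trans ?_ hs
    have : 1 ≤ r ^ 2 := Nat.one_le_pow _ _ hr
    omega
  have hrs : r ≤ s := by omega
  have hs1 : 1 ≤ s := by omega
  obtain ⟨S, hS⟩ := hM1 V G ((5 * kap e r lam : ℕ) : ℝ) s (by exact_mod_cast (by omega)) hs1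
  obtain ⟨hSne, hSlt, hSmin⟩ := hS
  have hS : MinSet G ((5 * kap e r lam : ℕ) : ℝ) s S := ⟨hSne, hSlt, hSmin⟩
  have hsR : (1 : ℝ) ≤ (s : ℝ) := by exact_mod_cast hs1
  -- the size of `S`
  have hmain : e * S.card ≤ (e + 1) * s := by
    by_contra hcon
    push Not at hcon
    have hsS : s < S.card := by
      by_contra h
      push Not at h
      have : e * S.card ≤ e * s := Nat.mul_le_mul_left _ h
      have : e * s ≤ (e + 1) * s := Nat.mul_le_mul_right _ (by omega)
      omega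
    have hrho : (((5 * kap e r lam : ℕ) : ℝ)) ≤ (S.card : ℝ) := by exact_mod_cast (by omega)
    obtain ⟨t, ht⟩ := hH1 V G S (nb G S)
      (hM2 hN1 V G _ s S (by exact_mod_cast (by omega)) hs1 hrho hS)
    have hdisj : Disjoint S (nb G S) := by
      rw [Finset.disjoint_left]
      intro v hv hv'
      exact (mem_nb.1 hv').1 hv
    have hconn := hM3 hN1 hS1 V G (kap e r lam) s S t hs1 hS hkappos ht
    have hbic : ¬ HasBicliqueMinor (cg G S (nb G S) t) r s := fun h =>
      hG (hT1 V (Fin r ⊕ Fin s) G _ S (nb G S) t hdisj ht h)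
    have hclique : ¬ IsMinor (⊤ : SimpleGraph (Fin (r + s))) (cg G S (nb G S) t) := fun h =>
      hbic (hT2 _ _ r s h)
    -- `S` is not too large
    have hx : S.card < s ^ 20 := by
      by_contra hx
      push Not at hx
      obtain ⟨l, lam', hl, hxl, hq, hpsi⟩ := hN5 s (r + s) S.card hs20 (by omega) hx
      obtain ⟨A, hA1, hA2, hA3⟩ := hP1 {x // x ∈ S} (cg G S (nb G S) t) (r + s) l lam' hl
        (by rw [card_sub]; exact hxl) (by rw [card_sub]; exact hq) hclique
        (by rw [card_sub]; omega)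
      rw [card_sub] at hA1 hA2 hA3
      have h4 := hM4 hN1 hN2 hS1 V G _ s S t (by exact_mod_cast (by omega)) hs1 hS ht A hA1 hA2
      have hlR : (0 : ℝ) < (l : ℝ) := by exact_mod_cast hl
      have h5 : (l : ℝ) * ((nb (cg G S (nb G S) t) A).card : ℝ) ≤
          ((l * (r + s) * (1 + 2 * (r + s) * l * lam') + S.card : ℕ) : ℝ) := by
        exact_mod_cast hA3
      have h6 : (l : ℝ) * psi S.card < (l : ℝ) * psi S.card := by
        calc (l : ℝ) * psi S.card <
            l * (50 * s * ((nb (cg G S (nb G S) t) A).card : ℝ)) := by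
              exact mul_lt_mul_of_pos_left h4 hlR
          _ = 50 * s * ((l : ℝ) * ((nb (cg G S (nb G S) t) A).card : ℝ)) := by ring
          _ ≤ 50 * s * ((l * (r + s) * (1 + 2 * (r + s) * l * lam') + S.card : ℕ) : ℝ) := by
              gcongr
          _ ≤ l * psi S.card := hpsi
      exact lt_irrefl _ h6
    have hxlam : S.card < 2 ^ lam := by
      refine hx.trans ?_
      have h1 : s < 2 ^ L := Nat.lt_pow_succ_log_self (by norm_num) s
      calc s ^ 20 < (2 ^ L) ^ 20 := Nat.pow_lt_pow_left h1 (by norm_num)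
        _ = 2 ^ lam := by rw [← pow_mul, hlam, mul_comm]
    exact hbic (hCDS hE4 hZ1 hE1 hE2 hE3 hI1 hN3 hK1 {x // x ∈ S} (cg G S (nb G S) t) e r s lam
      he hr (by rw [card_sub]; exact hxlam) hconn (by rw [card_sub]; omega)
      (by rw [card_sub]; exact hcon.le))
  refine ⟨S, hSne, ?_, ?_⟩
  · rw [Nat.le_div_iff_mul_le (by omega), mul_comm]; exact hmain
  · have h2 : S.card ≤ 2 * s := by
      by_contra h
      push Not at h
      nlinarith
    have h3 : psi S.card / s ≤ 2 := by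
      rw [div_le_iff₀ (by linarith)]
      have := hN1.2.2.1 S.card
      have h4 : (S.card : ℝ) ≤ 2 * s := by exact_mod_cast h2
      linarith
    have h5 : ((nb G S).card : ℝ) < ((5 * kap e r lam + 2 : ℕ) : ℝ) := by
      unfold phi at hSlt
      push_cast at hSlt ⊢
      linarith
    have h6 : (nb G S).card < 5 * kap e r lam + 2 := by exact_mod_cast h5
    exact h6.le

end Pool.Agent.Work.MP_768e99_pocket
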