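import Pool.Agent.Work.MP_768e99_pocket.Interface

set_option autoImplicit false

namespace Pool.Agent.Work.MP_768e99_pocket

open Pool.Agent.Work.MP_768e99_co

theorem CDS : B_CDS := by
  classical
  intro hE4 hZ1 hE1 hE2 hE3 hI hN hK V _ G e r s lam he hr hlam hconn hcard hs
  obtain ⟨f, hf1, hf2, hf3⟩ := hE4 hE1 hE2 hE3 hI hN hK V G e r lam he hr hlam hconn hcard
  have hne : Nonempty V := Fintype.card_pos_iff.1 (by omega)
  -- the connected dominating sets
  have hcds : ∀ i, i < r → Conn G (Zset lam i lam f) := by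
    intro i hi
    refine hZ1 V G lam (fun j => Zset lam i j f) hlam hne ?_ (hf1 i hi) ?_
    · rintro j v ⟨h1, h2⟩
      exact ⟨h1, by omega⟩
    · intro j hj D hD hDc
      exact hf2 i j hi hj D hD hDc
  have hdom : ∀ i, i < r → Dom G (Zset lam i lam f) := by
    intro i hi v
    obtain ⟨z, hz, hvz⟩ := hf1 i hi v
    exact ⟨z, ⟨hz.1, by have := hz.2; omega⟩, hvz⟩
  -- the leaves
  let U : Finset V := Finset.univ.filter (fun v => ¬ ((f v : ℕ) < r * (lam + 1)))
  have hU : s ≤ U.card := by
    have h1 : (Finset.univ.filter (fun v => (f v : ℕ) < r * (lam + 1))).card + U.card =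
        Fintype.card V := by
      rw [← Finset.card_univ]
      exact Finset.card_filter_add_card_filter_not _
    have h2 : {v | (f v : ℕ) < r * (lam + 1)}.ncard =
        (Finset.univ.filter (fun v => (f v : ℕ) < r * (lam + 1))).card := by
      rw [← Set.ncard_coe_finset]
      congr 1
      ext v; simp
    rw [h2] at hf3
    generalize (Finset.univ.filter (fun v => (f v : ℕ) < r * (lam + 1))).card = x at *
    generalize U.card = y at *
    rw [← h1] at hs hf3
    obtain ⟨e', rfl⟩ : ∃ e', e = e' + 1 := ⟨e - 1, by omega⟩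
    by_contra hcon
    push Not at hcon
    obtain ⟨u, rfl⟩ : ∃ u, s = y + 1 + u := ⟨s - (y + 1), by omega⟩
    nlinarith [Nat.zero_le (e' * u), Nat.zero_le (e' * x), Nat.zero_le (e' * y)]
  obtain ⟨T, hTU, hTc⟩ := Finset.exists_subset_card_eq hU
  have eT : Fin s ≃ T := (Fintype.equivFinOfCardEq (by simpa using hTc)).symm
  have hleaf : ∀ j, r * (lam + 1) ≤ (f (eT j) : ℕ) := by
    intro j
    have := hTU (eT j).2
    simp only [U, Finset.mem_filter, Finset.mem_univ, true_and, not_lt] at this
    exact this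
  have hnot : ∀ i, i < r → ∀ v ∈ Zset lam i lam f, (f v : ℕ) < r * (lam + 1) := by
    rintro i hi v ⟨h1, h2⟩
    have h3 : (i + 1) * (lam + 1) ≤ r * (lam + 1) := Nat.mul_le_mul_right _ hi
    have h4 : (i + 1) * (lam + 1) = i * (lam + 1) + lam + 1 := by ring
    omega
  refine ⟨Sum.elim (fun i : Fin r => Zset lam i lam f) (fun j : Fin s => {(eT j : V)}), ?_, ?_, ?_⟩
  · rintro (i | j)
    · exact (hcds i i.2).connected
    · exact (Conn.singleton (eT j : V)).connected
  · rintro (i | j) (i' | j') hne'
    · simp only [Sum.elim_inl]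
      rw [Set.disjoint_left]
      rintro v ⟨h1, h2⟩ ⟨h3, h4⟩
      apply hne'
      congr 1
      apply Fin.ext
      by_contra hii
      rcases Nat.lt_or_gt_of_ne hii with h | h
      · have h5 : ((i : ℕ) + 1) * (lam + 1) ≤ i' * (lam + 1) := Nat.mul_le_mul_right _ h
        have h6 : ((i : ℕ) + 1) * (lam + 1) = i * (lam + 1) + lam + 1 := by ring
        omega
      · have h5 : ((i' : ℕ) + 1) * (lam + 1) ≤ i * (lam + 1) := Nat.mul_le_mul_right _ h
        have h6 : ((i' : ℕ) + 1) * (lam + 1) = i' * (lam + 1) + lam + 1 := by ring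
        omega
    · simp only [Sum.elim_inl, Sum.elim_inr, Set.disjoint_singleton_right]
      intro h
      have h1 := hnot i i.2 _ h
      have h2 := hleaf j'
      omega
    · simp only [Sum.elim_inl, Sum.elim_inr, Set.disjoint_singleton_left]
      intro h
      have h1 := hnot i' i'.2 _ h
      have h2 := hleaf j
      omega
    · simp only [Sum.elim_inr, Set.disjoint_singleton]
      intro h
      apply hne'
      congr 1
      exact eT.injective (Subtype.ext h)
  · rintro (i | j) (i' | j') hadj
    · simp at hadj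
    · obtain ⟨z, hz, hvz⟩ := hdom i i.2 (eT j')
      exact ⟨z, hz, eT j', rfl, hvz.symm⟩
    · obtain ⟨z, hz, hvz⟩ := hdom i' i'.2 (eT j)
      exact ⟨eT j, rfl, z, hz, hvz⟩
    · simp at hadj

end Pool.Agent.Work.MP_768e99_pocket
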