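import Pool.Agent.Work.MP_768e99_co.Core

/-!
# Pockets in `K_{r,s}`-minor-free graphs: definitions

`nb G A` is the outer neighbourhood of a vertex set, `KConn G k` says that the outer
neighbourhood of every vertex set, which leaves some vertex outside, has more than `k` vertices.
`cg G S R t` is the graph on `S` obtained by contracting every `w ∈ R` into `t w`.
-/

set_option autoImplicit false

namespace Pool.Agent.Work.MP_768e99_pocket

open Pool.Agent.Work.MP_768e99_co

universe u

variable {V : Type u}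

open Classical in
/-- The outer neighbourhood of a set of vertices. -/
noncomputable def nb [Fintype V] (G : SimpleGraph V) (A : Finset V) : Finset V :=
  Finset.univ.filter (fun v => v ∉ A ∧ ∃ a ∈ A, G.Adj a v)

@[simp] lemma mem_nb [Fintype V] {G : SimpleGraph V} {A : Finset V} {v : V} :
    v ∈ nb G A ↔ v ∉ A ∧ ∃ a ∈ A, G.Adj a v := by
  simp [nb]

/-- Every nonempty vertex set `A`, which together with its outer neighbourhood is not everything,
has more than `k` outer neighbours. -/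
def KConn [Fintype V] (G : SimpleGraph V) (k : ℕ) : Prop :=
  ∀ A : Finset V, A.Nonempty → (∃ b, b ∉ A ∧ b ∉ nb G A) → k < (nb G A).card

/-- A pocket: a nonempty set of at most `a` vertices with at most `b` outer neighbours. -/
def Pocket [Fintype V] (G : SimpleGraph V) (a b : ℕ) : Prop :=
  ∃ S : Finset V, S.Nonempty ∧ S.card ≤ a ∧ (nb G S).card ≤ b

/-- The graph on `S` obtained by contracting every `w ∈ R` into the vertex `t w`; the edges
inside `R` are dropped. -/
def cg (G : SimpleGraph V) (S R : Finset V) (t : V → V) : SimpleGraph {x // x ∈ S} where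
  Adj u v := u ≠ v ∧ (G.Adj u v ∨ (∃ w ∈ R, t w = u ∧ G.Adj w v) ∨ (∃ w ∈ R, t w = v ∧ G.Adj w u))
  symm := ⟨fun u v h => ⟨h.1.symm, by
    rcases h.2 with h | h | h
    · exact Or.inl h.symm
    · exact Or.inr (Or.inr h)
    · exact Or.inr (Or.inl h)⟩⟩
  loopless := ⟨fun u h => h.1 rfl⟩

/-- A root assignment: every `w ∈ R` gets a neighbour `t w` in `S`, every vertex is used at most
twice. -/
def RootMap (G : SimpleGraph V) (S R : Finset V) (t : V → V) : Prop :=
  (∀ w ∈ R, t w ∈ S ∧ G.Adj w (t w)) ∧ ∀ v, {w | w ∈ R ∧ t w = v}.ncard ≤ 2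

/-- Weight `y ^ (3/4)`. -/
noncomputable def psi (y : ℕ) : ℝ := (y : ℝ) ^ ((3 : ℝ) / 4)

/-- The function `rho + y ^ (3/4) / s`. -/
noncomputable def phi (rho : ℝ) (s y : ℕ) : ℝ := rho + psi y / s

/-- `S` is a smallest nonempty set with fewer than `phi |S|` outer neighbours. -/
def MinSet [Fintype V] (G : SimpleGraph V) (rho : ℝ) (s : ℕ) (S : Finset V) : Prop :=
  S.Nonempty ∧ ((nb G S).card : ℝ) < phi rho s S.card ∧
    ∀ S' : Finset V, S'.Nonempty → S'.card < S.card → phi rho s S'.card ≤ (nb G S').card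

/-- The connectivity needed: `96 e² r² (lam+1)³`. -/
def kap (e r lam : ℕ) : ℕ := 96 * e ^ 2 * r ^ 2 * (lam + 1) ^ 3

/-- The number of labels. -/
def numL (e r lam : ℕ) : ℕ := 4 * e * r * (lam + 1)

/-- The vertices whose label is one of `i (lam+1), ..., i (lam+1) + j`: class `i`, layers up to
`j`. -/
def Zset {M : ℕ} (lam i j : ℕ) (f : V → Fin M) : Set V :=
  {v | i * (lam + 1) ≤ (f v : ℕ) ∧ (f v : ℕ) ≤ i * (lam + 1) + j}

/-- `D` is a nonempty proper subset of `Z` without edges to the rest of `Z`. -/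
def Closed (G : SimpleGraph V) (Z D : Set V) : Prop :=
  D ⊆ Z ∧ D.Nonempty ∧ D ≠ Z ∧ ∀ x ∈ D, ∀ y ∈ Z, G.Adj x y → y ∈ D

/-- `Z` dominates: every vertex has a neighbour in `Z`. -/
def Dom (G : SimpleGraph V) (Z : Set V) : Prop := ∀ v, ∃ z ∈ Z, G.Adj v z

/-- `c` is a connector from `D` to `Z \ D`: one or two vertices outside `Z`. -/
def Connector (G : SimpleGraph V) (Z D : Set V) (c : Finset V) : Prop :=
  (∀ x ∈ c, x ∉ Z) ∧ c.card ≤ 2 ∧ ∃ a ∈ c, ∃ b ∈ c, (a = b ∨ G.Adj a b) ∧
    (∃ x ∈ D, G.Adj x a) ∧ ∃ y ∈ Z, y ∉ D ∧ G.Adj b y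

end Pool.Agent.Work.MP_768e99_pocket
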