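import Pool.Agent.Work.MP_768e99_pocket.Interface

set_option autoImplicit false

namespace Pool.Agent.Work.MP_768e99_pocket

open Pool.Agent.Work.MP_768e99_co

theorem E1 : B_E1 := by
  classical
  intro hI hN V _ G e r lam i he hir hconn hcard
  have hr : 1 ≤ r := by omega
  have hMr : r * (lam + 1) ≤ numL e r lam := by
    unfold numL
    calc r * (lam + 1) = 1 * r * (lam + 1) := by ring
      _ ≤ 4 * e * r * (lam + 1) := by gcongr; omega
  have htlt : i * (lam + 1) < numL e r lam := by
    have : (i + 1) * (lam + 1) ≤ r * (lam + 1) := Nat.mul_le_mul_right _ hir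
    have h2 : (i + 1) * (lam + 1) = i * (lam + 1) + lam + 1 := by ring
    omega
  have hkap : 2 * (3 * numL e r lam ^ 2 * (lam + 1)) = kap e r lam := by
    unfold kap numL; ring
  have hMpos : 1 ≤ numL e r lam := by omega
  have hM2 : 1 ≤ numL e r lam ^ 2 := Nat.one_le_pow _ _ hMpos
  generalize hMdef : numL e r lam = M at *
  let t : Fin M := ⟨i * (lam + 1), htlt⟩
  let P : V → (V → Fin M) → Prop := fun v f => ∀ z, G.Adj v z → f z ≠ t
  have hsub : {f : V → Fin M | ¬ Dom G (Zset lam i 0 f)} ⊆
      ((Finset.univ.biUnion fun v => Finset.univ.filter (P v) : Finset (V → Fin M)) :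
        Set (V → Fin M)) := by
    intro f hf
    rw [Set.mem_ofPred_eq] at hf
    unfold Dom at hf
    push Not at hf
    obtain ⟨v, hv⟩ := hf
    simp only [Finset.coe_biUnion, Finset.coe_univ, Set.mem_univ, Set.iUnion_true,
      Finset.coe_filter, Finset.mem_univ, true_and, Set.mem_iUnion]
    refine ⟨v, fun z hz hzt => hv z ?_ hz⟩
    have h2 : (f z : ℕ) = i * (lam + 1) := by rw [hzt]
    simp only [Zset, Set.mem_ofPred_eq]
    omega
  have hv : ∀ v : V, (Finset.univ.filter (P v)).card * 2 ^ (3 * (lam + 1)) ≤
      M ^ Fintype.card V := by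
    intro v
    -- the degree
    have hdeg : kap e r lam < (nb G {v}).card := by
      by_cases hb : ∃ b, b ∉ ({v} : Finset V) ∧ b ∉ nb G {v}
      · exact hconn {v} (Finset.singleton_nonempty v) hb
      · push Not at hb
        have h1 : (Finset.univ : Finset V) ⊆ insert v (nb G {v}) := by
          intro b _
          by_cases hbv : b = v
          · rw [hbv]; exact Finset.mem_insert_self _ _
          · exact Finset.mem_insert_of_mem (hb b (by simpa using hbv))
        have h2 := (Finset.card_le_card h1).trans (Finset.card_insert_le _ _)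
        rw [Finset.card_univ] at h2
        omega
    let F : Finset (Finset V) := (nb G {v}).image (fun z => ({z} : Finset V))
    have hFc : F.card = (nb G {v}).card :=
      Finset.card_image_of_injective _ Finset.singleton_injective
    have hFmem : ∀ c ∈ F, ∃ z, G.Adj v z ∧ c = {z} := by
      intro c hc
      obtain ⟨z, hz, rfl⟩ := Finset.mem_image.1 hc
      rw [mem_nb] at hz
      obtain ⟨-, a, ha, haz⟩ := hz
      rw [Finset.mem_singleton] at ha
      subst ha
      exact ⟨z, haz, rfl⟩
    have key := hI V M (fun _ => Finset.univ) t F (by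
        intro c hc
        obtain ⟨z, -, rfl⟩ := hFmem c hc
        simp) (by
        intro c hc c' hc' hne
        obtain ⟨z, -, rfl⟩ := hFmem c hc
        obtain ⟨z', -, rfl⟩ := hFmem c' hc'
        rw [Finset.disjoint_singleton]
        intro h
        exact hne (by rw [h])) (fun _ _ _ _ => Finset.mem_univ _)
    have hcard1 : (Finset.univ.filter (P v)).card ≤
        {f : V → Fin M | (∀ w, f w ∈ (Finset.univ : Finset (Fin M))) ∧
          ∀ c ∈ F, ∃ w ∈ c, f w ≠ t}.ncard := by
      rw [← Set.ncard_coe_finset]
      refine Set.ncard_le_ncard ?_ (Set.toFinite _)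
      intro f hf
      rw [Finset.mem_coe, Finset.mem_filter] at hf
      refine ⟨fun _ => Finset.mem_univ _, ?_⟩
      intro c hc
      obtain ⟨z, hz, rfl⟩ := hFmem c hc
      exact ⟨z, Finset.mem_singleton_self z, hf.2 z hz⟩
    have hcard2 : {f : V → Fin M | ∀ w, f w ∈ (Finset.univ : Finset (Fin M))}.ncard =
        M ^ Fintype.card V := by
      have : {f : V → Fin M | ∀ w, f w ∈ (Finset.univ : Finset (Fin M))} =
          ((Finset.univ : Finset (V → Fin M)) : Set (V → Fin M)) := by
        ext f; simp
      rw [this, Set.ncard_coe_finset, Finset.card_univ, Fintype.card_fun, Fintype.card_fin]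
    rw [← hcard2]
    have hFm : 3 * M ^ 2 * (lam + 1) ≤ F.card := by omega
    exact hN (M ^ 2) (lam + 1) F.card _ _ hM2 hFm
      ((Nat.mul_le_mul_right _ hcard1).trans key)
  calc _ ≤ (∑ v : V, (Finset.univ.filter (P v)).card) * 2 ^ (3 * (lam + 1)) := by
        refine Nat.mul_le_mul_right _ ?_
        refine (Set.ncard_le_ncard hsub (Set.toFinite _)).trans ?_
        rw [Set.ncard_coe_finset]
        exact Finset.card_biUnion_le
    _ = ∑ v : V, (Finset.univ.filter (P v)).card * 2 ^ (3 * (lam + 1)) := by
        rw [Finset.sum_mul]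
    _ ≤ ∑ v : V, M ^ Fintype.card V := Finset.sum_le_sum fun v _ => hv v
    _ = _ := by rw [Finset.sum_const, Finset.card_univ, smul_eq_mul]

end Pool.Agent.Work.MP_768e99_pocket
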