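import Pool.Agent.Work.MP_768e99_pocket.Interface

set_option autoImplicit false

namespace Pool.Agent.Work.MP_768e99_pocket

open Pool.Agent.Work.MP_768e99_co

/-- Components are unique. -/
lemma comp_unique {V : Type} {G : SimpleGraph V} {Z D D' : Set V} {v : V} (h : Closed G Z D)
    (hc : Conn G D) (h' : Closed G Z D') (hv : v ∈ D) (hv' : v ∈ D') : D ⊆ D' := by
  have := hc.2 (D ∩ D') Set.inter_subset_left ⟨v, hv, hv'⟩ (by
    rintro x ⟨hx, hx'⟩ y hy hxy
    exact ⟨hy, h'.2.2.2 x hx' y (h.1 hy) hxy⟩)
  exact fun x hx => (this hx).2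

theorem E2 : B_E2 := by
  classical
  intro hI hN hK V _ G e r lam i j he hir hj hconn
  have hr : 1 ≤ r := by omega
  have hMr : r * (lam + 1) ≤ numL e r lam := by
    unfold numL
    calc r * (lam + 1) = 1 * r * (lam + 1) := by ring
      _ ≤ 4 * e * r * (lam + 1) := by gcongr; omega
  have htlt : i * (lam + 1) + j + 1 < numL e r lam := by
    have : (i + 1) * (lam + 1) ≤ r * (lam + 1) := Nat.mul_le_mul_right _ hir
    have h2 : (i + 1) * (lam + 1) = i * (lam + 1) + lam + 1 := by ring
    omega
  have hkap : 2 * (3 * numL e r lam ^ 2 * (lam + 1)) = kap e r lam := by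
    unfold kap numL; ring
  have hMpos : 1 ≤ numL e r lam := by omega
  have hM2 : 1 ≤ numL e r lam ^ 2 := Nat.one_le_pow _ _ hMpos
  generalize hMdef : numL e r lam = M at *
  let t : Fin M := ⟨i * (lam + 1) + j + 1, htlt⟩
  -- the bad sets
  let P : V → (V → Fin M) → Prop := fun v f => ∃ D, v ∈ D ∧ Dom G (Zset lam i j f) ∧
    Closed G (Zset lam i j f) D ∧ Conn G D ∧
      ¬ ∃ c : Finset V, (c : Set V) ⊆ Zset lam i (j + 1) f ∧ Connector G (Zset lam i j f) D c
  have hsub : {f : V → Fin M | Dom G (Zset lam i j f) ∧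
    ∃ D, Closed G (Zset lam i j f) D ∧ Conn G D ∧
      ¬ ∃ c : Finset V, (c : Set V) ⊆ Zset lam i (j + 1) f ∧
        Connector G (Zset lam i j f) D c} ⊆
      ((Finset.univ.biUnion fun v => Finset.univ.filter (P v) : Finset (V → Fin M)) :
        Set (V → Fin M)) := by
    rintro f ⟨h1, D, h2, h3, h4⟩
    obtain ⟨v, hv⟩ := h3.1
    simp only [Finset.coe_biUnion, Finset.coe_univ, Set.mem_univ, Set.iUnion_true,
      Finset.coe_filter, Finset.mem_univ, true_and, Set.mem_iUnion]
    exact ⟨v, D, hv, h1, h2, h3, h4⟩
  have hv : ∀ v : V, (Finset.univ.filter (P v)).card * 2 ^ (3 * (lam + 1)) ≤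
      M ^ Fintype.card V := by
    intro v
    let pat : (V → Fin M) → (V → Option (Fin M)) := fun f w =>
      if i * (lam + 1) ≤ (f w : ℕ) ∧ (f w : ℕ) ≤ i * (lam + 1) + j then some (f w) else none
    have hfib : ∀ p : V → Option (Fin M),
        ((Finset.univ.filter (P v)).filter (fun f => pat f = p)).card * 2 ^ (3 * (lam + 1)) ≤
        (Finset.univ.filter (fun f : V → Fin M => pat f = p)).card := by
      intro p
      by_cases hemp : ((Finset.univ.filter (P v)).filter (fun f => pat f = p)) = ∅
      · rw [hemp]; simp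
      obtain ⟨f0, hf0⟩ := Finset.nonempty_iff_ne_empty.2 hemp
      rw [Finset.mem_filter, Finset.mem_filter] at hf0
      obtain ⟨⟨-, D, hvD, hdom, hcl, hcn, hno⟩, hpat⟩ := hf0
      -- patterns determine `Z`
      have hZ : ∀ f : V → Fin M, pat f = p → Zset lam i j f = Zset lam i j f0 := by
        intro f hf
        ext w
        have h1 : pat f w = pat f0 w := by rw [hf, hpat]
        simp only [pat] at h1
        simp only [Zset, Set.mem_ofPred_eq]
        by_cases ha : i * (lam + 1) ≤ (f w : ℕ) ∧ (f w : ℕ) ≤ i * (lam + 1) + j <;>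
          by_cases hb : i * (lam + 1) ≤ (f0 w : ℕ) ∧ (f0 w : ℕ) ≤ i * (lam + 1) + j
        · simp [ha, hb]
        · rw [if_pos ha, if_neg hb] at h1; exact absurd h1 (by simp)
        · rw [if_neg ha, if_pos hb] at h1; exact absurd h1 (by simp)
        · simp [ha, hb]
      obtain ⟨F, hF1, hF2, hF3⟩ := hK V G (kap e r lam) (Zset lam i j f0) D hconn hdom hcl
      let A : V → Finset (Fin M) := fun w =>
        if i * (lam + 1) ≤ (f0 w : ℕ) ∧ (f0 w : ℕ) ≤ i * (lam + 1) + j then {f0 w} else
          Finset.univ.filter (fun a : Fin M => ¬ (i * (lam + 1) ≤ (a : ℕ) ∧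
            (a : ℕ) ≤ i * (lam + 1) + j))
      have hA : ∀ f : V → Fin M, pat f = p ↔ ∀ w, f w ∈ A w := by
        intro f
        constructor
        · intro hf w
          have h1 : pat f w = pat f0 w := by rw [hf, hpat]
          simp only [pat] at h1
          by_cases hb : i * (lam + 1) ≤ (f0 w : ℕ) ∧ (f0 w : ℕ) ≤ i * (lam + 1) + j
          · have hAw : A w = {f0 w} := if_pos hb
            rw [if_pos hb] at h1
            by_cases ha : i * (lam + 1) ≤ (f w : ℕ) ∧ (f w : ℕ) ≤ i * (lam + 1) + j
            · rw [if_pos ha] at h1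
              rw [hAw, Option.some.inj h1]; simp
            · rw [if_neg ha] at h1; exact absurd h1 (by simp)
          · have hAw : A w = Finset.univ.filter (fun a : Fin M => ¬ (i * (lam + 1) ≤ (a : ℕ) ∧
              (a : ℕ) ≤ i * (lam + 1) + j)) := if_neg hb
            rw [if_neg hb] at h1
            rw [hAw, Finset.mem_filter]
            refine ⟨Finset.mem_univ _, fun ha => ?_⟩
            rw [if_pos ha] at h1; exact absurd h1 (by simp)
        · intro hf
          rw [← hpat]
          funext w
          have hw := hf w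
          simp only [pat]
          by_cases hb : i * (lam + 1) ≤ (f0 w : ℕ) ∧ (f0 w : ℕ) ≤ i * (lam + 1) + j
          · have hAw : A w = {f0 w} := if_pos hb
            rw [hAw, Finset.mem_singleton] at hw
            rw [hw]
          · have hAw : A w = Finset.univ.filter (fun a : Fin M => ¬ (i * (lam + 1) ≤ (a : ℕ) ∧
              (a : ℕ) ≤ i * (lam + 1) + j)) := if_neg hb
            rw [hAw, Finset.mem_filter] at hw
            rw [if_neg hw.2, if_neg hb]
      have key := hI V M A t F (fun c hc => (hF1 c hc).2.1) hF2 (by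
        intro c hc w hw
        have hwZ := (hF1 c hc).1 w hw
        have hAw : A w = Finset.univ.filter (fun a : Fin M => ¬ (i * (lam + 1) ≤ (a : ℕ) ∧
              (a : ℕ) ≤ i * (lam + 1) + j)) := if_neg hwZ
        rw [hAw, Finset.mem_filter]
        refine ⟨Finset.mem_univ _, fun h => ?_⟩
        have := h.2
        simp only [t] at this
        omega)
      have hcard2 : (Finset.univ.filter (fun f : V → Fin M => pat f = p)).card =
          {f : V → Fin M | ∀ w, f w ∈ A w}.ncard := by
        rw [← Set.ncard_coe_finset]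
        congr 1
        ext f
        simp only [Finset.coe_filter, Finset.mem_univ, true_and, Set.mem_ofPred_eq]
        exact hA f
      have hcard1 : ((Finset.univ.filter (P v)).filter (fun f => pat f = p)).card ≤
          {f : V → Fin M | (∀ w, f w ∈ A w) ∧ ∀ c ∈ F, ∃ w ∈ c, f w ≠ t}.ncard := by
        rw [← Set.ncard_coe_finset]
        refine Set.ncard_le_ncard ?_ (Set.toFinite _)
        intro f hf
        rw [Finset.mem_coe, Finset.mem_filter, Finset.mem_filter] at hf
        obtain ⟨⟨-, D', hvD', hdom', hcl', hcn', hno'⟩, hpat'⟩ := hf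
        refine ⟨(hA f).1 hpat', ?_⟩
        intro c hc
        by_contra hall
        push Not at hall
        rw [hZ f hpat'] at hcl' hno'
        have hDD : D' = D := Set.Subset.antisymm (comp_unique hcl' hcn' hcl hvD' hvD)
          (comp_unique hcl hcn hcl' hvD hvD')
        subst hDD
        apply hno'
        refine ⟨c, ?_, hF1 c hc⟩
        intro w hw
        have h1 := hall w hw
        have h2 : (f w : ℕ) = i * (lam + 1) + j + 1 := by rw [h1]
        simp only [Zset, Set.mem_ofPred_eq]
        omega
      rw [hcard2]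
      have hFm : 3 * M ^ 2 * (lam + 1) ≤ F.card := by omega
      exact hN (M ^ 2) (lam + 1) F.card _ _ hM2 hFm
        ((Nat.mul_le_mul_right _ hcard1).trans key)
    have h1 : (Finset.univ.filter (P v)).card =
        ∑ p : V → Option (Fin M), ((Finset.univ.filter (P v)).filter (fun f => pat f = p)).card :=
      Finset.card_eq_sum_card_fiberwise (fun _ _ => Finset.mem_univ _)
    have h2 : (Finset.univ : Finset (V → Fin M)).card =
        ∑ p : V → Option (Fin M), (Finset.univ.filter (fun f : V → Fin M => pat f = p)).card :=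
      Finset.card_eq_sum_card_fiberwise (fun _ _ => Finset.mem_univ _)
    have h3 : (Finset.univ : Finset (V → Fin M)).card = M ^ Fintype.card V := by
      rw [Finset.card_univ, Fintype.card_fun, Fintype.card_fin]
    rw [← h3, h1, h2, Finset.sum_mul]
    exact Finset.sum_le_sum fun p _ => hfib p
  calc _ ≤ (∑ v : V, (Finset.univ.filter (P v)).card) * 2 ^ (3 * (lam + 1)) := by
        refine Nat.mul_le_mul_right _ ?_
        refine (Set.ncard_le_ncard hsub (Set.toFinite _)).trans ?_
        rw [Set.ncard_coe_finset]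
        exact Finset.card_biUnion_le
    _ = ∑ v : V, (Finset.univ.filter (P v)).card * 2 ^ (3 * (lam + 1)) := by
        rw [Finset.sum_mul]
    _ ≤ ∑ v : V, M ^ Fintype.card V := Finset.sum_le_sum fun v _ => hv v
    _ = _ := by rw [Finset.sum_const, Finset.card_univ, smul_eq_mul]

end Pool.Agent.Work.MP_768e99_pocket
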