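import Pool.Agent.Work.MP_768e99_pocket.Interface

/-! # Block E4: the union bound (helper17) -/

set_option autoImplicit false

namespace Pool.Agent.Work.MP_768e99_pocket

open Pool.Agent.Work.MP_768e99_co

theorem e4_zset_mono {V : Type} {M : ℕ} (lam i j : ℕ) (f : V → Fin M) :
    Zset lam i 0 f ⊆ Zset lam i j f := by
  intro v hv
  exact ⟨hv.1, hv.2.trans (by omega)⟩

theorem e4_dom_mono {V : Type} (G : SimpleGraph V) {Z Z' : Set V} (h : Z ⊆ Z') (hZ : Dom G Z) :
    Dom G Z' := by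
  intro v
  obtain ⟨z, hz, hadj⟩ := hZ v
  exact ⟨z, h hz, hadj⟩

/-- the counting step -/
theorem e4_count {α : Type} [Fintype α] (r lam Q P T N : ℕ) (hT : T = Fintype.card α)
    (B1 : ℕ → Set α) (B2 : ℕ → ℕ → Set α) (B3 : Set α)
    (h1 : ∀ i < r, (B1 i).ncard * P ≤ N * T)
    (h2 : ∀ i < r, ∀ j < lam, (B2 i j).ncard * P ≤ N * T)
    (h3 : B3.ncard * 2 ≤ T) (hQ : Q = r * (lam + 1)) (hP : 2 * Q * N < P) (hTpos : 0 < T) :
    ∃ f : α, (∀ i < r, f ∉ B1 i) ∧ (∀ i < r, ∀ j < lam, f ∉ B2 i j) ∧ f ∉ B3 := by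
  classical
  by_contra hcon
  have hall : ∀ f : α, f ∈ B3 ∨ (∃ i < r, f ∈ B1 i) ∨ ∃ i < r, ∃ j < lam, f ∈ B2 i j := by
    intro f
    by_contra hf
    push Not at hf
    exact hcon ⟨f, hf.2.1, hf.2.2, hf.1⟩
  have hcard : ∀ B : Set α, B.ncard = (Finset.univ.filter (fun f => f ∈ B)).card := by
    intro B
    rw [← Set.ncard_coe_finset]
    congr 1
    ext f
    simp
  have hcov : (Finset.univ : Finset α) ⊆ (Finset.univ.filter (fun f => f ∈ B3)) ∪
      (((Finset.range r).biUnion fun i => Finset.univ.filter (fun f => f ∈ B1 i)) ∪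
      ((Finset.range r).biUnion fun i => (Finset.range lam).biUnion fun j =>
        Finset.univ.filter (fun f => f ∈ B2 i j))) := by
    intro f _
    rw [Finset.mem_union, Finset.mem_union, Finset.mem_biUnion, Finset.mem_biUnion]
    rcases hall f with h | ⟨i, hi, h⟩ | ⟨i, hi, j, hj, h⟩
    · exact Or.inl (Finset.mem_filter.2 ⟨Finset.mem_univ _, h⟩)
    · exact Or.inr (Or.inl ⟨i, Finset.mem_range.2 hi, Finset.mem_filter.2 ⟨Finset.mem_univ _, h⟩⟩)
    · exact Or.inr (Or.inr ⟨i, Finset.mem_range.2 hi, Finset.mem_biUnion.2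
        ⟨j, Finset.mem_range.2 hj, Finset.mem_filter.2 ⟨Finset.mem_univ _, h⟩⟩⟩)
  have hle := Finset.card_le_card hcov
  rw [Finset.card_univ, ← hT] at hle
  have hle2 : T ≤ B3.ncard + (∑ i ∈ Finset.range r, (B1 i).ncard +
      ∑ i ∈ Finset.range r, ∑ j ∈ Finset.range lam, (B2 i j).ncard) := by
    refine hle.trans ((Finset.card_union_le _ _).trans ?_)
    rw [← hcard]
    refine Nat.add_le_add_left ((Finset.card_union_le _ _).trans ?_) _
    refine Nat.add_le_add (Finset.card_biUnion_le.trans ?_) (Finset.card_biUnion_le.trans ?_)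
    · exact Finset.sum_le_sum fun i _ => (hcard _).ge
    · refine Finset.sum_le_sum fun i _ => Finset.card_biUnion_le.trans ?_
      exact Finset.sum_le_sum fun j _ => (hcard _).ge
  have hs1 : (∑ i ∈ Finset.range r, (B1 i).ncard) * P ≤ r * (N * T) := by
    rw [Finset.sum_mul]
    refine (Finset.sum_le_sum fun i hi => h1 i (Finset.mem_range.1 hi)).trans ?_
    rw [Finset.sum_const, Finset.card_range, smul_eq_mul]
  have hs2 : (∑ i ∈ Finset.range r, ∑ j ∈ Finset.range lam, (B2 i j).ncard) * P ≤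
      r * (lam * (N * T)) := by
    rw [Finset.sum_mul]
    calc ∑ i ∈ Finset.range r, (∑ j ∈ Finset.range lam, (B2 i j).ncard) * P
        ≤ ∑ i ∈ Finset.range r, lam * (N * T) := by
          refine Finset.sum_le_sum fun i hi => ?_
          rw [Finset.sum_mul]
          refine (Finset.sum_le_sum fun j hj =>
            h2 i (Finset.mem_range.1 hi) j (Finset.mem_range.1 hj)).trans ?_
          rw [Finset.sum_const, Finset.card_range, smul_eq_mul]
      _ = r * (lam * (N * T)) := by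
          rw [Finset.sum_const, Finset.card_range, smul_eq_mul]
  set X1 := ∑ i ∈ Finset.range r, (B1 i).ncard
  set X2 := ∑ i ∈ Finset.range r, ∑ j ∈ Finset.range lam, (B2 i j).ncard
  have hfin : T * (2 * P) ≤ T * P + 2 * (r * (lam + 1) * N * T) := by
    calc T * (2 * P) ≤ (B3.ncard + (X1 + X2)) * (2 * P) := Nat.mul_le_mul_right _ hle2
      _ = B3.ncard * 2 * P + 2 * (X1 * P) + 2 * (X2 * P) := by ring
      _ ≤ T * P + 2 * (r * (N * T)) + 2 * (r * (lam * (N * T))) :=
          Nat.add_le_add (Nat.add_le_add (Nat.mul_le_mul_right _ h3)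
            (Nat.mul_le_mul_left _ hs1)) (Nat.mul_le_mul_left _ hs2)
      _ = T * P + 2 * (r * (lam + 1) * N * T) := by ring
  have hlt : T * P + 2 * (r * (lam + 1) * N * T) < T * (2 * P) := by
    have h5 : T * (2 * Q * N) < T * P := Nat.mul_lt_mul_of_pos_left hP hTpos
    calc T * P + 2 * (r * (lam + 1) * N * T) = T * P + T * (2 * Q * N) := by rw [hQ]; ring
      _ < T * P + T * P := Nat.add_lt_add_left h5 _
      _ = T * (2 * P) := by ring
  exact absurd hfin (not_le.2 hlt)

theorem E4 : B_E4 := by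
  intro hE1 hE2 hE3 hI1 hN3 hK1 V _ G e r lam he hr hlam hk hkV
  classical
  have hQ1 : r * (lam + 1) ≤ kap e r lam := by
    unfold kap
    have h1 : 1 ≤ 96 * e ^ 2 * r * (lam + 1) ^ 2 := by
      have : 0 < 96 * e ^ 2 * r * (lam + 1) ^ 2 := by positivity
      omega
    calc r * (lam + 1) = 1 * (r * (lam + 1)) := (one_mul _).symm
      _ ≤ 96 * e ^ 2 * r * (lam + 1) ^ 2 * (r * (lam + 1)) := Nat.mul_le_mul_right _ h1
      _ = 96 * e ^ 2 * r ^ 2 * (lam + 1) ^ 3 := by ring
  have hP : 2 * (r * (lam + 1)) * Fintype.card V < 2 ^ (3 * (lam + 1)) := by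
    set N := Fintype.card V
    set L := 2 ^ lam with hL
    have hLpos : 0 < L := by positivity
    have hq : r * (lam + 1) < L := by omega
    have h2 : (2 : ℕ) ^ (3 * (lam + 1)) = 8 * (L * L * L) := by
      rw [hL, ← pow_add, ← pow_add, show (8 : ℕ) = 2 ^ 3 by norm_num, ← pow_add]
      congr 1
      ring
    rw [h2]
    have h3 : r * (lam + 1) * N ≤ L * L := Nat.mul_le_mul hq.le hlam.le
    have h4 : L * L ≤ L * L * L := Nat.le_mul_of_pos_right _ hLpos
    have h5 : 0 < L * L := Nat.mul_pos hLpos hLpos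
    calc 2 * (r * (lam + 1)) * N = 2 * (r * (lam + 1) * N) := by ring
      _ ≤ 2 * (L * L) := Nat.mul_le_mul_left _ h3
      _ < 8 * (L * L * L) := by omega
  have hTc : numL e r lam ^ Fintype.card V = Fintype.card (V → Fin (numL e r lam)) := by
    rw [Fintype.card_fun, Fintype.card_fin]
  have hTpos : 0 < numL e r lam ^ Fintype.card V := by
    unfold numL
    positivity
  obtain ⟨f, hf1, hf2, hf3⟩ := e4_count (α := V → Fin (numL e r lam)) r lam (r * (lam + 1))
    (2 ^ (3 * (lam + 1))) (numL e r lam ^ Fintype.card V) (Fintype.card V) hTc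
    (fun i => {f | ¬ Dom G (Zset lam i 0 f)})
    (fun i j => {f | Dom G (Zset lam i j f) ∧
      ∃ D, Closed G (Zset lam i j f) D ∧ Conn G D ∧
        ¬ ∃ c : Finset V, (c : Set V) ⊆ Zset lam i (j + 1) f ∧
          Connector G (Zset lam i j f) D c})
    {f | Fintype.card V < 2 * e * {v | (f v : ℕ) < r * (lam + 1)}.ncard}
    (fun i hi => hE1 hI1 hN3 V G e r lam i he hi hk hkV)
    (fun i hi j hj => hE2 hI1 hN3 hK1 V G e r lam i j he hi hj hk)
    (hE3 V e r lam he hr) rfl hP hTpos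
  have hd : ∀ i, i < r → Dom G (Zset lam i 0 f) := by
    intro i hi
    by_contra h
    exact hf1 i hi h
  refine ⟨f, hd, ?_, ?_⟩
  · intro i j hi hj D hD hDc
    by_contra h
    exact hf2 i hi j hj ⟨e4_dom_mono G (e4_zset_mono lam i j f) (hd i hi), D, hD, hDc, h⟩
  · by_contra h
    exact hf3 (not_le.1 h)

end Pool.Agent.Work.MP_768e99_pocket
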