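import Pool.Agent.Work.MP_768e99_pocket.Defs

/-!
# Pockets in `K_{r,s}`-minor-free graphs: the blocks

Every block is one proposition `B_xxx`; the file of block `xxx` proves `theorem xxx : B_xxx`.
Paper proof: note on MP_768e99_co (pocket lemma).
-/

set_option autoImplicit false

namespace Pool.Agent.Work.MP_768e99_pocket

open Pool.Agent.Work.MP_768e99_co

/-! ## Colouring from pockets -/

/-- One step: a colouring with defect `d` of `G - S` extends to `G`. (Among all colourings which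
agree with `c` off `S` and give to `v ∈ S` a colour not used on the neighbours of `v` outside `S`,
take one with the least number of monochromatic edges inside `S`.) -/
def B_C1 : Prop := ∀ (V : Type) [Fintype V] (G : SimpleGraph V) (S : Finset V) (k k0 d : ℕ)
  (c : V → Fin k),
  (∀ v, v ∉ S → {w | w ∉ S ∧ G.Adj v w ∧ c w = c v}.ncard ≤ d) →
  (nb G S).card ≤ k0 → k0 < k → S.card ≤ (d + 1) * (k - k0) → DefColorable G k d

/-- Induction on the number of vertices. -/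
def B_C2 : Prop := ∀ (r s a b k d : ℕ), B_C1 →
  (∀ (V : Type) [Fintype V] [Nonempty V] (G : SimpleGraph V),
    ¬ HasBicliqueMinor G r s → Pocket G a b) →
  b < k → a ≤ (d + 1) * (k - b) →
  ∀ (V : Type) [Fintype V] (G : SimpleGraph V), ¬ HasBicliqueMinor G r s → DefColorable G k d

/-! ## Contraction of the outer neighbourhood -/

/-- Hall's theorem for the bipartite graph between `R` and `S`, every vertex of `S` doubled. -/
def B_H1 : Prop := ∀ (V : Type) [Fintype V] (G : SimpleGraph V) (S R : Finset V),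
  (∀ T : Finset V, T ⊆ R → T.card ≤ 2 * {v | v ∈ S ∧ ∃ w ∈ T, G.Adj w v}.ncard) →
  ∃ t : V → V, RootMap G S R t

/-- A minor of the contracted graph is a minor of `G`. -/
def B_T1 : Prop := ∀ (V W : Type) [Fintype V] (G : SimpleGraph V) (H : SimpleGraph W)
  (S R : Finset V) (t : V → V), Disjoint S R → RootMap G S R t →
  IsMinor H (cg G S R t) → IsMinor H G

/-- `K_{r+s}` contains `K_{r,s}`. -/
def B_T2 : Prop := ∀ (V : Type) (G : SimpleGraph V) (r s : ℕ),
  IsMinor (⊤ : SimpleGraph (Fin (r + s))) G → HasBicliqueMinor G r s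

/-- Separators of the contracted graph: `A`, `X = N(A)`, `A₂` the rest. -/
def B_S1 : Prop := ∀ (V : Type) [Fintype V] (G : SimpleGraph V) (S : Finset V) (t : V → V),
  RootMap G S (nb G S) t → ∀ A A₂ : Finset {x // x ∈ S},
  (∀ v, v ∈ A₂ ↔ v ∉ A ∧ v ∉ nb (cg G S (nb G S) t) A) →
  (nb G (A.map (Function.Embedding.subtype _))).card +
    (nb G (A₂.map (Function.Embedding.subtype _))).card ≤
      4 * (nb (cg G S (nb G S) t) A).card + (nb G S).card

/-! ## The weight function -/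

/-- Elementary facts about `psi y = y ^ (3/4)`. -/
def B_N1 : Prop :=
  (∀ a b : ℕ, psi (a + b) ≤ psi a + psi b) ∧ (∀ a b : ℕ, a ≤ b → psi a ≤ psi b) ∧
  (∀ a : ℕ, psi a ≤ a) ∧ (∀ a : ℕ, 0 ≤ psi a)

/-- The gain from a balanced separation. -/
def B_N2 : Prop := ∀ a a₂ t x s : ℕ, 1 ≤ s → 1 ≤ x → a + t + a₂ = x → x ≤ 3 * a →
  3 * a ≤ 2 * x → 50 * s * (t : ℝ) ≤ psi x →
  1 ≤ a₂ ∧ psi x + 4 * s * t ≤ psi a + psi a₂

/-- The parameters for the separator theorem when `x ≥ s^20`. -/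
def B_N5 : Prop := ∀ s h x : ℕ, 2 ^ 20 ≤ s → h ≤ 2 * s → s ^ 20 ≤ x →
  ∃ l lam : ℕ, 1 ≤ l ∧ x < 2 ^ lam ∧ 12 * h * (1 + 2 * h * l * lam) ≤ x ∧
    50 * s * ((l * h * (1 + 2 * h * l * lam) + x : ℕ) : ℝ) ≤ l * psi x

/-! ## The smallest set with few outer neighbours -/

def B_M1 : Prop := ∀ (V : Type) [Fintype V] [Nonempty V] (G : SimpleGraph V) (rho : ℝ) (s : ℕ),
  0 < rho → 1 ≤ s → ∃ S, MinSet G rho s S

/-- Hall's condition. -/
def B_M2 : Prop := B_N1 → ∀ (V : Type) [Fintype V] (G : SimpleGraph V) (rho : ℝ) (s : ℕ)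
  (S : Finset V), 0 < rho → 1 ≤ s → rho ≤ S.card → MinSet G rho s S →
  ∀ T : Finset V, T ⊆ nb G S → T.card ≤ 2 * {v | v ∈ S ∧ ∃ w ∈ T, G.Adj w v}.ncard

/-- The contracted graph is `k`-connected. -/
def B_M3 : Prop := B_N1 → B_S1 → ∀ (V : Type) [Fintype V] (G : SimpleGraph V) (k s : ℕ)
  (S : Finset V) (t : V → V), 1 ≤ s → MinSet G (5 * k : ℕ) s S → 0 < k →
  RootMap G S (nb G S) t → KConn (cg G S (nb G S) t) k

/-- The contracted graph has no small balanced separators. -/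
def B_M4 : Prop := B_N1 → B_N2 → B_S1 → ∀ (V : Type) [Fintype V] (G : SimpleGraph V) (rho : ℝ)
  (s : ℕ) (S : Finset V) (t : V → V), 0 < rho → 1 ≤ s → MinSet G rho s S →
  RootMap G S (nb G S) t → ∀ A : Finset {x // x ∈ S}, S.card ≤ 3 * A.card →
  3 * A.card ≤ 2 * S.card →
  psi S.card < 50 * s * ((nb (cg G S (nb G S) t) A).card : ℝ)

/-! ## Plotkin-Rao-Smith separator theorem -/

def B_P1 : Prop := ∀ (V : Type) [Fintype V] (G : SimpleGraph V) (h l lam : ℕ), 1 ≤ l →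
  Fintype.card V < 2 ^ lam → 12 * h * (1 + 2 * h * l * lam) ≤ Fintype.card V →
  ¬ IsMinor (⊤ : SimpleGraph (Fin h)) G → 0 < Fintype.card V →
  ∃ A : Finset V, Fintype.card V ≤ 3 * A.card ∧ 3 * A.card ≤ 2 * Fintype.card V ∧
    l * (nb G A).card ≤ l * h * (1 + 2 * h * l * lam) + Fintype.card V

/-! ## Highly connected graphs have `K_{r,s}` minors -/

/-- Connectors: more than `k/2` disjoint ones. -/
def B_K1 : Prop := ∀ (V : Type) [Fintype V] (G : SimpleGraph V) (k : ℕ) (Z D : Set V),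
  KConn G k → Dom G Z → Closed G Z D →
  ∃ F : Finset (Finset V), (∀ c ∈ F, Connector G Z D c) ∧
    (∀ c ∈ F, ∀ c' ∈ F, c ≠ c' → Disjoint c c') ∧ k < 2 * F.card

/-- Product counting: the maps in a box avoiding the constant `t` on each of `m` disjoint sets
of size at most two. -/
def B_I1 : Prop := ∀ (V : Type) [Fintype V] [DecidableEq V] (M : ℕ) (A : V → Finset (Fin M))
  (t : Fin M) (F : Finset (Finset V)),
  (∀ c ∈ F, c.card ≤ 2) → (∀ c ∈ F, ∀ c' ∈ F, c ≠ c' → Disjoint c c') →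
  (∀ c ∈ F, ∀ v ∈ c, t ∈ A v) →
  {f : V → Fin M | (∀ v, f v ∈ A v) ∧ ∀ c ∈ F, ∃ v ∈ c, f v ≠ t}.ncard * (M ^ 2) ^ F.card ≤
    (M ^ 2 - 1) ^ F.card * {f : V → Fin M | ∀ v, f v ∈ A v}.ncard

/-- `(1 - 1/q)^(3 q L) ≤ 2^(-3 L)`. -/
def B_N3 : Prop := ∀ q L m N B : ℕ, 1 ≤ q → 3 * q * L ≤ m → B * q ^ m ≤ (q - 1) ^ m * N →
  B * 2 ^ (3 * L) ≤ N

/-- Halving (in terms of sizes): every closed proper nonempty subset of `Z j` has at least `2^j`
vertices; so `Z lam` is connected. -/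
def B_Z1 : Prop := ∀ (V : Type) [Fintype V] (G : SimpleGraph V) (lam : ℕ) (Z : ℕ → Set V),
  Fintype.card V < 2 ^ lam → Nonempty V → (∀ j, Z j ⊆ Z (j + 1)) → Dom G (Z 0) →
  (∀ j, j < lam → ∀ D, Closed G (Z j) D → Conn G D →
    ∃ c : Finset V, (c : Set V) ⊆ Z (j + 1) ∧ Connector G (Z j) D c) →
  Conn G (Z lam)

/-- Few labellings make the first layer of class `i` non-dominating. -/
def B_E1 : Prop := B_I1 → B_N3 → ∀ (V : Type) [Fintype V] (G : SimpleGraph V) (e r lam i : ℕ),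
  1 ≤ e → i < r → KConn G (kap e r lam) → kap e r lam + 2 ≤ Fintype.card V →
  {f : V → Fin (numL e r lam) | ¬ Dom G (Zset lam i 0 f)}.ncard * 2 ^ (3 * (lam + 1)) ≤
    Fintype.card V * numL e r lam ^ Fintype.card V

/-- Few labellings leave a component of `Z_i^j` not joined to another one in `Z_i^(j+1)`. -/
def B_E2 : Prop := B_I1 → B_N3 → B_K1 → ∀ (V : Type) [Fintype V] (G : SimpleGraph V)
  (e r lam i j : ℕ), 1 ≤ e → i < r → j < lam → KConn G (kap e r lam) →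
  {f : V → Fin (numL e r lam) | Dom G (Zset lam i j f) ∧
    ∃ D, Closed G (Zset lam i j f) D ∧ Conn G D ∧
      ¬ ∃ c : Finset V, (c : Set V) ⊆ Zset lam i (j + 1) f ∧
        Connector G (Zset lam i j f) D c}.ncard * 2 ^ (3 * (lam + 1)) ≤
    Fintype.card V * numL e r lam ^ Fintype.card V

/-- Markov's inequality for the number of labelled vertices. -/
def B_E3 : Prop := ∀ (V : Type) [Fintype V] (e r lam : ℕ), 1 ≤ e → 1 ≤ r →
  {f : V → Fin (numL e r lam) |
    Fintype.card V < 2 * e * {v | (f v : ℕ) < r * (lam + 1)}.ncard}.ncard * 2 ≤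
    numL e r lam ^ Fintype.card V

/-- The union bound. -/
def B_E4 : Prop := B_E1 → B_E2 → B_E3 → B_I1 → B_N3 → B_K1 → ∀ (V : Type) [Fintype V]
  (G : SimpleGraph V) (e r lam : ℕ), 1 ≤ e → 1 ≤ r → Fintype.card V < 2 ^ lam →
  KConn G (kap e r lam) → kap e r lam + 2 ≤ Fintype.card V →
  ∃ f : V → Fin (numL e r lam), (∀ i, i < r → Dom G (Zset lam i 0 f)) ∧
    (∀ i j, i < r → j < lam → ∀ D, Closed G (Zset lam i j f) D → Conn G D →
      ∃ c : Finset V, (c : Set V) ⊆ Zset lam i (j + 1) f ∧ Connector G (Zset lam i j f) D c) ∧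
    2 * e * {v | (f v : ℕ) < r * (lam + 1)}.ncard ≤ Fintype.card V

/-- The minor. -/
def B_CDS : Prop := B_E4 → B_Z1 → B_E1 → B_E2 → B_E3 → B_I1 → B_N3 → B_K1 → ∀ (V : Type)
  [Fintype V] (G : SimpleGraph V) (e r s lam : ℕ), 1 ≤ e → 1 ≤ r → Fintype.card V < 2 ^ lam →
  KConn G (kap e r lam) → kap e r lam + 2 ≤ Fintype.card V →
  (e + 1) * s ≤ e * Fintype.card V → HasBicliqueMinor G r s

/-! ## Assembly -/

/-- **Pocket lemma**, `L = log₂ s + 1`, `lam = 20 L`, `k0 = 5 kap + 2`. -/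
def B_POCKET : Prop := ∀ (e r s : ℕ), 1 ≤ e → 1 ≤ r →
  5 * kap e r (20 * (Nat.log 2 s + 1)) ≤ s → ∀ (V : Type) [Fintype V] [Nonempty V]
  (G : SimpleGraph V), ¬ HasBicliqueMinor G r s →
  Pocket G ((e + 1) * s / e) (5 * kap e r (20 * (Nat.log 2 s + 1)) + 2)

end Pool.Agent.Work.MP_768e99_pocket
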