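import Pool.Agent.Work.MP_768e99_pocket.Interface

/-!
# Many disjoint connectors in a highly connected graph
-/

set_option autoImplicit false

namespace Pool.Agent.Work.MP_768e99_pocket

open Pool.Agent.Work.MP_768e99_co

theorem K1 : B_K1 := by
  classical
  intro V _ G k Z D hK hDom hCl
  obtain ⟨hDZ, ⟨d0, hd0⟩, hne, hclos⟩ := hCl
  -- families of pairwise disjoint connectors
  let P : Finset (Finset V) → Prop := fun F => (∀ c ∈ F, Connector G Z D c) ∧
    (∀ c ∈ F, ∀ c' ∈ F, c ≠ c' → Disjoint c c')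
  obtain ⟨F, hF, hmax⟩ : ∃ F, P F ∧ ∀ F', P F' → F'.card ≤ F.card := by
    have hne' : ((Finset.univ : Finset (Finset (Finset V))).filter P).Nonempty :=
      ⟨∅, by simp [P]⟩
    obtain ⟨F, hF, hmax⟩ := Finset.exists_max_image _ Finset.card hne'
    refine ⟨F, (Finset.mem_filter.1 hF).2, fun F' hF' => hmax F' ?_⟩
    exact Finset.mem_filter.2 ⟨Finset.mem_univ _, hF'⟩
  refine ⟨F, hF.1, hF.2, ?_⟩
  by_contra hlt
  push Not at hlt
  set U : Finset V := F.biUnion id with hU
  have hUcard : U.card ≤ 2 * F.card := by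
    calc U.card ≤ ∑ c ∈ F, c.card := Finset.card_biUnion_le
      _ ≤ ∑ _c ∈ F, 2 := Finset.sum_le_sum fun c hc => (hF.1 c hc).2.1
      _ = 2 * F.card := by simp [mul_comm]
  have hUZ : ∀ v ∈ U, v ∉ Z := by
    intro v hv
    obtain ⟨c, hc, hvc⟩ := Finset.mem_biUnion.1 hv
    exact (hF.1 c hc).1 v hvc
  -- no connector is disjoint from `U`
  have hno : ∀ c : Finset V, Connector G Z D c → ∃ v ∈ c, v ∈ U := by
    intro c hc
    by_contra hcon
    push Not at hcon
    have hcF : c ∉ F := by
      intro hcF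
      obtain ⟨a, ha, -⟩ := hc.2.2
      exact hcon a ha (Finset.mem_biUnion.2 ⟨c, hcF, ha⟩)
    have hdis : ∀ c' ∈ F, Disjoint c c' := by
      intro c' hc'
      rw [Finset.disjoint_left]
      intro v hv hv'
      exact hcon v hv (Finset.mem_biUnion.2 ⟨c', hc', hv'⟩)
    have hP : P (insert c F) := by
      refine ⟨?_, ?_⟩
      · intro x hx
        rcases Finset.mem_insert.1 hx with h | h
        · rw [h]; exact hc
        · exact hF.1 x h
      · intro x hx y hy hxy
        rcases Finset.mem_insert.1 hx with h | h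
        · rcases Finset.mem_insert.1 hy with h' | h'
          · exact absurd (h.trans h'.symm) hxy
          · rw [h]; exact hdis y h'
        · rcases Finset.mem_insert.1 hy with h' | h'
          · rw [h']; exact (hdis x h).symm
          · exact hF.2 x h y h' hxy
    have := hmax _ hP
    rw [Finset.card_insert_of_notMem hcF] at this
    omega
  obtain ⟨y0, hy0Z, hy0D⟩ : ∃ y ∈ Z, y ∉ D := by
    by_contra hcon
    push Not at hcon
    exact hne (Set.Subset.antisymm hDZ hcon)
  set A : Finset V := Finset.univ.filter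
    (fun v => v ∈ D ∨ (v ∉ Z ∧ v ∉ U ∧ ∃ x ∈ D, G.Adj x v)) with hA
  have memA : ∀ v, v ∈ A ↔ v ∈ D ∨ (v ∉ Z ∧ v ∉ U ∧ ∃ x ∈ D, G.Adj x v) := by
    intro v; simp [hA]
  have hnb : nb G A ⊆ U := by
    intro v hv
    rw [mem_nb] at hv
    obtain ⟨hvA, a, haA, hav⟩ := hv
    by_contra hvU
    rw [memA] at hvA
    push Not at hvA
    obtain ⟨hvD, hvn⟩ := hvA
    rcases (memA a).1 haA with haD | ⟨haZ, haU, x, hxD, hxa⟩
    · by_cases hvZ : v ∈ Z
      · exact hvD (hclos a haD v hvZ hav)
      · exact hvn hvZ hvU a haD hav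
    · by_cases hvZ : v ∈ Z
      · -- `{a}` is a connector
        obtain ⟨w, hw, hwU⟩ := hno {a} ⟨by simpa using haZ, by simp, a, by simp, a, by simp,
          Or.inl rfl, ⟨x, hxD, hxa⟩, v, hvZ, hvD, hav⟩
        rw [Finset.mem_singleton.1 hw] at hwU
        exact haU hwU
      · obtain ⟨z, hz, hvz⟩ := hDom v
        by_cases hzD : z ∈ D
        · exact hvn hvZ hvU z hzD hvz.symm
        · obtain ⟨w, hw, hwU⟩ := hno {a, v} ⟨by
            intro w hw
            rcases Finset.mem_insert.1 hw with h | h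
            · rw [h]; exact haZ
            · rw [Finset.mem_singleton.1 h]; exact hvZ, Finset.card_le_two, a, by simp, v,
            by simp, Or.inr hav, ⟨x, hxD, hxa⟩, z, hz, hzD, hvz⟩
          rcases Finset.mem_insert.1 hw with h | h
          · rw [h] at hwU; exact haU hwU
          · rw [Finset.mem_singleton.1 h] at hwU; exact hvU hwU
  have h1 := hK A ⟨d0, (memA d0).2 (Or.inl hd0)⟩ ⟨y0, by
    rw [memA]
    rintro (h | h)
    · exact hy0D h
    · exact h.1 hy0Z, fun h => hUZ y0 (hnb h) hy0Z⟩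
  have h2 := Finset.card_le_card hnb
  omega

end Pool.Agent.Work.MP_768e99_pocket
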