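import Pool.Agent.Work.MP_768e99_pocket.Interface

set_option autoImplicit false

namespace Pool.Agent.Work.MP_768e99_pocket

theorem M1 : B_M1 := by
  intro V _ _ G rho s hrho hs
  classical
  let P : ℕ → Prop := fun n =>
    ∃ S : Finset V, S.Nonempty ∧ ((nb G S).card : ℝ) < phi rho s S.card ∧ S.card = n
  have hP : ∃ n, P n := by
    refine ⟨(Finset.univ : Finset V).card, Finset.univ, Finset.univ_nonempty, ?_, rfl⟩
    have h1 : nb G (Finset.univ : Finset V) = ∅ := by
      ext v; simp
    rw [h1]
    have h2 : 0 ≤ psi (Finset.univ : Finset V).card / (s : ℝ) := by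
      unfold psi; positivity
    simp only [phi, Finset.card_empty, Nat.cast_zero]
    linarith
  obtain ⟨S, hS, hlt, hcard⟩ := Nat.find_spec hP
  refine ⟨S, hS, hlt, ?_⟩
  intro S' hS' hc
  by_contra hcon
  exact Nat.find_min hP (m := S'.card) (by rw [← hcard]; exact hc) ⟨S', hS', not_le.mp hcon, rfl⟩

end Pool.Agent.Work.MP_768e99_pocket
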