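import Pool.Agent.Work.MP_768e99_pocket.Interface

/-!
# Block P1, part 1: growing balls and connected sets
-/

set_option autoImplicit false

namespace Pool.Agent.Work.MP_768e99_pocket

open Pool.Agent.Work.MP_768e99_co

universe u

variable {V : Type u}

namespace P1

/-- The union of two meeting connected sets is connected. -/
lemma conn_union {G : SimpleGraph V} {U W : Set V} (hU : Conn G U) (hW : Conn G W) {x : V}
    (hxU : x ∈ U) (hxW : x ∈ W) : Conn G (U ∪ W) := by
  refine ⟨⟨x, Or.inl hxU⟩, ?_⟩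
  intro T hT hTne hcl
  have key : ∀ Y : Set V, Conn G Y → Y ⊆ U ∪ W → (∃ y ∈ Y, y ∈ T) → Y ⊆ T := by
    rintro Y hY hYs ⟨y, hyY, hyT⟩
    have := hY.2 (T ∩ Y) Set.inter_subset_right ⟨y, hyT, hyY⟩ (by
      rintro a ⟨haT, haY⟩ b hb hab
      exact ⟨hcl a haT b (hYs hb) hab, hb⟩)
    exact fun z hz => (this hz).1
  obtain ⟨t, ht⟩ := hTne
  have hxT : x ∈ T := by
    rcases hT ht with h | h
    · exact key U hU Set.subset_union_left ⟨t, h, ht⟩ hxU
    · exact key W hW Set.subset_union_right ⟨t, h, ht⟩ hxW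
  rintro z (hz | hz)
  · exact key U hU Set.subset_union_left ⟨x, hxU, hxT⟩ hz
  · exact key W hW Set.subset_union_right ⟨x, hxW, hxT⟩ hz

/-- A union of connected sets through one vertex is connected. -/
lemma conn_star [DecidableEq V] {G : SimpleGraph V} {ι : Type*} (F : Finset ι)
    (P : ι → Finset V) (a : V) (hP : ∀ c ∈ F, Conn G (P c : Set V)) (ha : ∀ c ∈ F, a ∈ P c) :
    Conn G ((insert a (F.biUnion P) : Finset V) : Set V) := by
  refine ⟨⟨a, by simp⟩, ?_⟩
  intro T hT hTne hcl
  have key : ∀ c ∈ F, (∃ y ∈ P c, y ∈ T) → ∀ z ∈ P c, z ∈ T := by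
    rintro c hc ⟨y, hyP, hyT⟩
    have hsub : ∀ z ∈ P c, z ∈ ((insert a (F.biUnion P) : Finset V) : Set V) := by
      intro z hz
      simp only [Finset.coe_insert, Finset.coe_biUnion, Set.mem_insert_iff, Set.mem_iUnion]
      exact Or.inr ⟨c, hc, hz⟩
    have := (hP c hc).2 (T ∩ (P c : Set V)) Set.inter_subset_right ⟨y, hyT, hyP⟩ (by
      rintro a ⟨haT, haY⟩ b hb hab
      exact ⟨hcl a haT b (hsub b hb) hab, hb⟩)
    exact fun z hz => (this hz).1
  obtain ⟨t, ht⟩ := hTne
  have haT : a ∈ T := by
    have := hT ht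
    simp only [Finset.coe_insert, Finset.coe_biUnion, Set.mem_insert_iff, Set.mem_iUnion] at this
    rcases this with h | ⟨c, hc, h⟩
    · exact h ▸ ht
    · exact key c hc ⟨t, h, ht⟩ a (ha c hc)
  intro z hz
  simp only [Finset.coe_insert, Finset.coe_biUnion, Set.mem_insert_iff, Set.mem_iUnion] at hz
  rcases hz with h | ⟨c, hc, h⟩
  · exact h ▸ haT
  · exact key c hc ⟨a, ha c hc, haT⟩ z h

variable [Fintype V]

open Classical in
/-- The ball of radius `i` around `v` inside `U`. -/
noncomputable def ball (G : SimpleGraph V) (U : Finset V) (v : V) : ℕ → Finset V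
  | 0 => {v}
  | i + 1 => ball G U v i ∪ (nb G (ball G U v i) ∩ U)

open Classical in
lemma ball_subset (G : SimpleGraph V) (U : Finset V) (v : V) (hv : v ∈ U) (i : ℕ) :
    ball G U v i ⊆ U := by
  induction i with
  | zero => simpa [ball] using hv
  | succ i ih =>
    intro x hx
    rw [ball, Finset.mem_union, Finset.mem_inter] at hx
    rcases hx with h | h
    · exact ih h
    · exact h.2

open Classical in
lemma ball_conn (G : SimpleGraph V) (U : Finset V) (v : V) (hv : v ∈ U) (i : ℕ) :
    ∀ x ∈ ball G U v i, ∃ P : Finset V, v ∈ P ∧ x ∈ P ∧ P ⊆ U ∧ Conn G (P : Set V) ∧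
      P.card ≤ i + 1 := by
  induction i with
  | zero =>
    intro x hx
    rw [ball, Finset.mem_singleton] at hx
    subst hx
    refine ⟨{x}, by simp, by simp, by simpa using hv, ?_, by simp⟩
    rw [Finset.coe_singleton]
    exact Conn.singleton x
  | succ i ih =>
    intro x hx
    rw [ball, Finset.mem_union, Finset.mem_inter, mem_nb] at hx
    rcases hx with h | ⟨⟨_, y, hy, hyx⟩, hxU⟩
    · obtain ⟨P, h1, h2, h3, h4, h5⟩ := ih x h
      exact ⟨P, h1, h2, h3, h4, by omega⟩
    · obtain ⟨P, h1, h2, h3, h4, h5⟩ := ih y hy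
      refine ⟨P ∪ {x}, Finset.mem_union_left _ h1, by simp, ?_, ?_, ?_⟩
      · intro z hz
        rcases Finset.mem_union.1 hz with hz | hz
        · exact h3 hz
        · rw [Finset.mem_singleton] at hz
          exact hz ▸ hxU
      · rw [Finset.coe_union, Finset.coe_singleton]
        refine h4.union ?_
        rintro z hz
        rw [Set.mem_singleton_iff] at hz
        subst hz
        exact ⟨y, h2, hyx.symm⟩
      · have := Finset.card_union_le P {x}
        rw [Finset.card_singleton] at this
        omega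

/-- `2^lam * l^(l*lam) ≤ (l+1)^(l*lam)`. -/
lemma bern (l lam : ℕ) (hl : 1 ≤ l) : 2 ^ lam * l ^ (l * lam) ≤ (l + 1) ^ (l * lam) := by
  have h1 : 2 * l ^ l ≤ (l + 1) ^ l := by
    have hl' : (0 : ℝ) < l := by exact_mod_cast hl
    have hb : 1 + (l : ℝ) * (1 / l) ≤ (1 + 1 / (l : ℝ)) ^ l :=
      one_add_mul_le_pow (by
        have : (0 : ℝ) ≤ 1 / (l : ℝ) := by positivity
        linarith) l
    have he : 1 + (l : ℝ) * (1 / l) = 2 := by field_simp; norm_num
    rw [he] at hb
    have h2 : (2 : ℝ) * (l : ℝ) ^ l ≤ ((l : ℝ) + 1) ^ l := by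
      calc (2 : ℝ) * (l : ℝ) ^ l ≤ (1 + 1 / (l : ℝ)) ^ l * (l : ℝ) ^ l :=
            mul_le_mul_of_nonneg_right hb (by positivity)
        _ = ((l : ℝ) + 1) ^ l := by
            rw [← mul_pow]
            congr 1
            field_simp
    exact_mod_cast h2
  calc 2 ^ lam * l ^ (l * lam) = (2 * l ^ l) ^ lam := by rw [mul_pow, ← pow_mul]
    _ ≤ ((l + 1) ^ l) ^ lam := Nat.pow_le_pow_left h1 lam
    _ = (l + 1) ^ (l * lam) := by rw [← pow_mul]

open Classical in
/-- Ball growth. -/
lemma ball_big (G : SimpleGraph V) (U : Finset V) (l lam : ℕ) (hl : 1 ≤ l)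
    (hn : Fintype.card V < 2 ^ lam) (v : V) (hv : v ∈ U)
    (hexp : ∀ X : Finset V, X ⊆ U → X.Nonempty → 2 * X.card ≤ U.card →
      X.card ≤ l * (nb G X ∩ U).card) :
    U.card < 2 * (ball G U v (l * lam)).card := by
  have hne : ∀ i, v ∈ ball G U v i := by
    intro i
    induction i with
    | zero => simp [ball]
    | succ i ih => rw [ball]; exact Finset.mem_union_left _ ih
  have hgrow : ∀ i, U.card < 2 * (ball G U v i).card ∨
      (l + 1) ^ i ≤ l ^ i * (ball G U v i).card := by
    intro i
    induction i with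
    | zero => right; simp [ball]
    | succ i ih =>
      have hcard : (ball G U v (i + 1)).card =
          (ball G U v i).card + (nb G (ball G U v i) ∩ U).card := by
        rw [ball, Finset.card_union_of_disjoint]
        rw [Finset.disjoint_left]
        intro x hx hx'
        rw [Finset.mem_inter, mem_nb] at hx'
        exact hx'.1.1 hx
      rcases lt_or_ge (U.card) (2 * (ball G U v i).card) with h | h
      · left; omega
      · rcases ih with ih | ih
        · omega
        · right
          have hx := hexp (ball G U v i) (ball_subset G U v hv i) ⟨v, hne i⟩ h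
          have h1 : (l + 1) * (ball G U v i).card ≤ l * (ball G U v (i + 1)).card := by
            rw [hcard]; nlinarith
          calc (l + 1) ^ (i + 1) = (l + 1) * (l + 1) ^ i := by ring
            _ ≤ (l + 1) * (l ^ i * (ball G U v i).card) := Nat.mul_le_mul_left _ ih
            _ = l ^ i * ((l + 1) * (ball G U v i).card) := by ring
            _ ≤ l ^ i * (l * (ball G U v (i + 1)).card) := Nat.mul_le_mul_left _ h1
            _ = l ^ (i + 1) * (ball G U v (i + 1)).card := by ring
  rcases hgrow (l * lam) with h | h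
  · exact h
  · exfalso
    have h1 := bern l lam hl
    have h2 : 2 ^ lam * l ^ (l * lam) ≤ (ball G U v (l * lam)).card * l ^ (l * lam) := by
      rw [mul_comm (ball G U v (l * lam)).card]; exact h1.trans h
    have h3 : 2 ^ lam ≤ (ball G U v (l * lam)).card :=
      Nat.le_of_mul_le_mul_right h2 (pow_pos hl _)
    have h4 : (ball G U v (l * lam)).card ≤ Fintype.card V := Finset.card_le_univ _
    omega

open Classical in
/-- Two vertices of an expanding set are joined by a small connected subset. -/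
lemma join_two (G : SimpleGraph V) (U : Finset V) (l lam : ℕ) (hl : 1 ≤ l)
    (hn : Fintype.card V < 2 ^ lam)
    (hexp : ∀ X : Finset V, X ⊆ U → X.Nonempty → 2 * X.card ≤ U.card →
      X.card ≤ l * (nb G X ∩ U).card) (a v : V) (ha : a ∈ U) (hv : v ∈ U) :
    ∃ P : Finset V, a ∈ P ∧ v ∈ P ∧ P ⊆ U ∧ Conn G (P : Set V) ∧
      P.card ≤ 2 * l * lam + 1 := by
  have h1 := ball_big G U l lam hl hn a ha hexp
  have h2 := ball_big G U l lam hl hn v hv hexp
  have hint : (ball G U a (l * lam) ∩ ball G U v (l * lam)).Nonempty := by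
    by_contra hne
    rw [Finset.not_nonempty_iff_eq_empty, ← Finset.disjoint_iff_inter_eq_empty] at hne
    have h3 := Finset.card_union_of_disjoint hne
    have h4 : (ball G U a (l * lam) ∪ ball G U v (l * lam)).card ≤ U.card :=
      Finset.card_le_card (Finset.union_subset (ball_subset G U a ha _) (ball_subset G U v hv _))
    omega
  obtain ⟨x, hx⟩ := hint
  rw [Finset.mem_inter] at hx
  obtain ⟨P, p1, p2, p3, p4, p5⟩ := ball_conn G U a ha _ x hx.1
  obtain ⟨P', q1, q2, q3, q4, q5⟩ := ball_conn G U v hv _ x hx.2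
  refine ⟨P ∪ P', Finset.mem_union_left _ p1, Finset.mem_union_right _ q1,
    Finset.union_subset p3 q3, ?_, ?_⟩
  · rw [Finset.coe_union]
    exact conn_union p4 q4 (Finset.mem_coe.2 p2) (Finset.mem_coe.2 q2)
  · have h5 := Finset.card_union_add_card_inter P P'
    have h6 : 0 < (P ∩ P').card := Finset.card_pos.2 ⟨x, Finset.mem_inter.2 ⟨p2, q2⟩⟩
    have h7 : 2 * l * lam = l * lam + l * lam := by ring
    omega

end P1

end Pool.Agent.Work.MP_768e99_pocket
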